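import Pool.Agent.H609Z.DA.Roots

set_option autoImplicit false
set_option linter.unusedSectionVars false

namespace Pool.Agent.H609Z.DA

open Pool.Agent.Helper741 CoxeterSystem Real

variable {B : Type*} {M : CoxeterMatrix B} [Fintype B] [DecidableEq B]
variable {W : Type*} [Group W] (cs : CoxeterSystem M W)

/-- a convex cone containing exactly one of `ρ`, `-ρ` for every root -/
@[ext] structure Half where
  s : Set (B → ℝ)
  add : ∀ u ∈ s, ∀ v ∈ s, u + v ∈ s
  smul : ∀ c : ℝ, 0 < c → ∀ v ∈ s, c • v ∈ s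
  root : ∀ ρ, IsRoot cs ρ → (-ρ ∈ s ↔ ρ ∉ s)

variable {cs}

/-- right action -/
def Half.act (P : Half cs) (w : W) : Half cs where
  s := {v | geo cs w v ∈ P.s}
  add u hu v hv := by
    simp only [Set.mem_ofPred_eq, map_add] at *
    exact P.add _ hu _ hv
  smul c hc v hv := by
    simp only [Set.mem_ofPred_eq, map_smul] at *
    exact P.smul c hc _ hv
  root ρ hρ := by
    simp only [Set.mem_ofPred_eq, map_neg]
    exact P.root _ (hρ.geo w)

@[simp] lemma Half.mem_act (P : Half cs) (w : W) (v : B → ℝ) :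
    v ∈ (P.act w).s ↔ geo cs w v ∈ P.s := Iff.rfl

@[simp] lemma Half.act_one (P : Half cs) : P.act 1 = P := by
  ext v; simp

lemma Half.act_mul (P : Half cs) (w w' : W) : P.act (w * w') = (P.act w).act w' := by
  ext v; simp only [Half.mem_act, geo_mul]

lemma Half.comb (P : Half cs) {u v : B → ℝ} (hu : u ∈ P.s) (hv : v ∈ P.s) {c d : ℝ} (hc : 0 ≤ c)
    (hd : 0 ≤ d) (h : c • u + d • v ≠ 0) : c • u + d • v ∈ P.s := by
  rcases hc.eq_or_lt with rfl | hc
  · rcases hd.eq_or_lt with rfl | hd
    · simp at h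
    · simpa using P.smul d hd v hv
  · rcases hd.eq_or_lt with rfl | hd
    · simpa using P.smul c hc u hu
    · exact P.add _ (P.smul c hc u hu) _ (P.smul d hd v hv)

open Classical in
/-- the sign of a vector -/
noncomputable def Half.eps (P : Half cs) (v : B → ℝ) : ℤ := if v ∈ P.s then 1 else -1

lemma Half.eps_pos (P : Half cs) {v : B → ℝ} (h : v ∈ P.s) : P.eps v = 1 := if_pos h
lemma Half.eps_neg (P : Half cs) {v : B → ℝ} (h : v ∉ P.s) : P.eps v = -1 := if_neg h

lemma Half.eps_act (P : Half cs) (w : W) (v : B → ℝ) : (P.act w).eps v = P.eps (geo cs w v) := rfl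

lemma Half.eps_root (P : Half cs) {ρ : B → ℝ} (h : IsRoot cs ρ) : P.eps (-ρ) = -P.eps ρ := by
  by_cases h1 : ρ ∈ P.s
  · rw [P.eps_pos h1, P.eps_neg fun h2 => (P.root ρ h).1 h2 h1]
  · rw [P.eps_neg h1, P.eps_pos ((P.root ρ h).2 h1)]; rfl

lemma Half.eps_simple (P : Half cs) (i : B) :
    (P.act (cs.simple i)).eps (ee i) = -P.eps (ee i) := by
  rw [Half.eps_act, geo_simple, sg_ee_self, P.eps_root (isRoot_ee i)]

variable {G : Type*} [Group G] (a : B → G)

/-- the signed lift of a word -/
noncomputable def Lw : Half cs → List B → G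
  | _, [] => 1
  | P, i :: ω => a i ^ P.eps (ee i) * Lw (P.act (cs.simple i)) ω

lemma Lw_append (P : Half cs) (ω ω' : List B) :
    Lw a P (ω ++ ω') = Lw a P ω * Lw a (P.act (cs.wordProd ω)) ω' := by
  induction ω generalizing P with
  | nil => simp [Lw]
  | cons i ω ih =>
    rw [List.cons_append, Lw, Lw, ih, cs.wordProd_cons, Half.act_mul, mul_assoc]

lemma Lw_concat (P : Half cs) (ω : List B) (i : B) :
    Lw a P (ω.concat i) = Lw a P ω * a i ^ P.eps (geo cs (cs.wordProd ω) (ee i)) := by
  rw [List.concat_eq_append, Lw_append, Lw, Lw, mul_one, Half.eps_act]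

variable (cs)

/-- one step -/
noncomputable def stepF (i : B) : Half cs × G → Half cs × G :=
  fun p => (p.1.act (cs.simple i), p.2 * a i ^ p.1.eps (ee i))

lemma stepF_invol (i : B) : Function.Involutive (stepF cs a i) := by
  rintro ⟨P, g⟩
  simp only [stepF, Half.eps_simple, ← Half.act_mul, cs.simple_mul_simple_self, Half.act_one]
  rw [mul_assoc, ← zpow_add]
  simp

/-- one step as a permutation -/
noncomputable def stepP (i : B) : Equiv.Perm (Half cs × G) := (stepF_invol cs a i).toPerm

lemma stepP_apply (i : B) (P : Half cs) (g : G) :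
    stepP cs a i (P, g) = (P.act (cs.simple i), g * a i ^ P.eps (ee i)) := rfl

lemma stepP_sq (i : B) : stepP cs a i * stepP cs a i = 1 := by
  ext1 p
  exact stepF_invol cs a i p

lemma alt_step (i j : B) (k : ℕ) (P : Half cs) (g : G) :
    alt (stepP cs a i) (stepP cs a j) k (P, g) =
      (P.act (cs.wordProd (alternatingWord j i k)), g * Lw a P (alternatingWord j i k)) := by
  induction k generalizing i j with
  | zero => simp [alternatingWord, Lw]
  | succ k ih =>
    rw [alt_succ, Equiv.Perm.mul_apply, ih, stepP_apply, alternatingWord_succ, cs.wordProd_concat,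
      Lw_concat, Half.act_mul, mul_assoc, Half.eps_act]

lemma altw_prod (i j : B) (k : ℕ) : ((alternatingWord i j k).map a).prod =
    if Even k then alt (a i) (a j) k else alt (a j) (a i) k := by
  induction k with
  | zero => simp [alternatingWord]
  | succ k ih =>
    rw [alternatingWord_succ', List.map_cons, List.prod_cons, ih]
    by_cases hk : Even k
    · have hk1 : ¬ Even (k + 1) := by simpa [Nat.even_add_one] using hk
      simp only [hk, hk1, if_true, if_false, alt_succ]
    · have hk1 : Even (k + 1) := by simpa [Nat.even_add_one] using hk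
      simp only [hk, hk1, if_true, if_false, alt_succ]

variable {cs}

lemma Lw_pos (P : Half cs) {i j : B} (hij : i ≠ j) (hi : ee i ∈ P.s) (hj : ee j ∈ P.s) (k : ℕ)
    (hk : k ≤ M i j) : Lw a P (alternatingWord i j k) = ((alternatingWord i j k).map a).prod := by
  induction k generalizing i j with
  | zero => simp [alternatingWord, Lw]
  | succ k ih =>
    have hM : M j i = M i j := M.symmetric j i
    rw [alternatingWord_succ, Lw_concat, ih hij.symm hj hi (by omega), List.map_concat,
      List.prod_concat]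
    congr 1
    have hr := (isRoot_ee (cs := cs) j).geo (cs.wordProd (alternatingWord j i k))
    have q1 : 0 ≤ qs (cc M j i) (k + 1) := qs_nonneg M hij.symm (Or.inr (by omega))
    have q2 : 0 ≤ qs (cc M j i) k := qs_nonneg M hij.symm (Or.inr (by omega))
    have hne := hr.ne_zero
    rw [P.eps_pos, zpow_one]
    rw [geo_wordProd, prod_alt_ee] at hne ⊢
    split_ifs at hne ⊢
    · exact P.comb hj hi q1 q2 hne
    · exact P.comb hi hj q1 q2 hne

lemma pow_eq_alt {H : Type*} [Group H] {x y : H} (hx : x * x = 1) (hy : y * y = 1) (m : ℕ) :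
    (x * y) ^ m = alt x y m * (alt y x m)⁻¹ := by
  have hx' : x⁻¹ = x := inv_eq_of_mul_eq_one_right hx
  have hy' : y⁻¹ = y := inv_eq_of_mul_eq_one_right hy
  induction m generalizing x y with
  | zero => simp
  | succ m ih =>
    rw [alt_succ, alt_succ, mul_inv_rev, hy', mul_assoc, ← mul_assoc (alt y x m),
      ← ih hy hx hy' hx', ← mul_assoc, ← mul_pow_mul_eq' x y m]
where
  mul_pow_mul_eq' (x y : H) (m : ℕ) : (x * y) ^ (m + 1) = x * (y * x) ^ m * y := by
    induction m with
    | zero => simp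
    | succ m ih => rw [pow_succ, ih, pow_succ]; simp only [mul_assoc]

lemma qs_m {i j : B} (h : i ≠ j) (h0 : M i j ≠ 0) :
    qs (cc M i j) (M i j) = 0 ∧ qs (cc M i j) (M i j + 1) = -1 := by
  have hs := sin_pos_of_ne M h h0
  have hm : (M i j : ℝ) ≠ 0 := by exact_mod_cast h0
  constructor
  · have h1 := qs_sin (π / (M i j : ℝ)) (M i j)
    have h2 : ((M i j : ℕ) : ℝ) * (π / (M i j : ℝ)) = π := by field_simp
    rw [h2, sin_pi] at h1
    exact (mul_eq_zero.mp h1).resolve_right hs.ne'
  · have h1 := qs_sin (π / (M i j : ℝ)) (M i j + 1)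
    have h2 : ((M i j + 1 : ℕ) : ℝ) * (π / (M i j : ℝ)) = (π / (M i j : ℝ)) + π := by
      push_cast; field_simp; ring
    rw [h2, sin_add_pi] at h1
    have : (qs (cc M i j) (M i j + 1) + 1) * sin (π / (M i j : ℝ)) = 0 := by
      rw [add_mul, one_mul]
      exact add_eq_zero_iff_eq_neg.2 h1
    have := (mul_eq_zero.mp this).resolve_right hs.ne'
    linarith

lemma exists_change {p : ℕ → Prop} {k l : ℕ} (hkl : k ≤ l) (hk : ¬ p k) (hl : p l) :
    ∃ n, ¬ p n ∧ p (n + 1) := by
  induction l with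
  | zero => exact absurd (Nat.le_zero.1 hkl ▸ hl) hk
  | succ l ih =>
    by_cases h : p l
    · rcases hkl.eq_or_lt with rfl | h'
      · exact absurd hl hk
      · exact ih (by omega) h
    · exact ⟨l, h, hl⟩

lemma exists_good (P : Half cs) {i j : B} (h : i ≠ j) (h0 : M i j ≠ 0) :
    ∃ k, (ee i ∈ (P.act (cs.wordProd (alternatingWord j i k))).s ∧
        ee j ∈ (P.act (cs.wordProd (alternatingWord j i k))).s) ∨
      (ee i ∈ (P.act (cs.wordProd (alternatingWord i j k))).s ∧
        ee j ∈ (P.act (cs.wordProd (alternatingWord i j k))).s) := by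
  let ρ : ℕ → B → ℝ := fun k => qs (cc M i j) (k + 1) • ee i + qs (cc M i j) k • ee j
  have h1 : ρ 0 = ee i := by simp [ρ]
  have h2 : ρ (M i j) = -ee i := by simp [ρ, (qs_m h h0).1, (qs_m h h0).2]
  have h3 : ρ (2 * M i j) = ee i := by simp [ρ, (qs_two_mul M h h0).1, (qs_two_mul M h h0).2]
  obtain ⟨k, hk1, hk2⟩ : ∃ n, ρ n ∉ P.s ∧ ρ (n + 1) ∈ P.s := by
    by_cases hi : ee i ∈ P.s
    · refine exists_change (p := fun n => ρ n ∈ P.s) (k := M i j) (l := 2 * M i j) (by omega) ?_ ?_
      · rw [h2]; exact fun h' => (P.root _ (isRoot_ee i)).1 h' hi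
      · rwa [h3]
    · refine exists_change (p := fun n => ρ n ∈ P.s) (k := 0) (l := M i j) (by omega) ?_ ?_
      · rwa [h1]
      · rw [h2]; exact (P.root _ (isRoot_ee i)).2 hi
  have e1 : ∀ n, Even n → geo cs (cs.wordProd (alternatingWord i j n)) (ee i) = ρ n := by
    intro n hn
    rw [geo_wordProd, prod_alt_ee, if_pos hn]
  have e2 : ∀ n, ¬ Even n → geo cs (cs.wordProd (alternatingWord j i n)) (ee j) = ρ n := by
    intro n hn
    rw [geo_wordProd, prod_alt_ee, if_neg hn, cc_symm M j i]
  refine ⟨k + 1, ?_⟩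
  by_cases hk : Even k
  · have hk' : ¬ Even (k + 1) := by simpa [Nat.even_add_one] using hk
    refine Or.inl ⟨?_, ?_⟩
    · rw [Half.mem_act, alternatingWord_succ, cs.wordProd_concat, geo_mul, geo_simple, sg_ee_self,
        map_neg]
      refine (P.root _ ((isRoot_ee i).geo _)).2 ?_
      rwa [e1 k hk]
    · rwa [Half.mem_act, e2 _ hk']
  · have hk' : Even (k + 1) := by simpa [Nat.even_add_one] using hk
    refine Or.inr ⟨?_, ?_⟩
    · rwa [Half.mem_act, e1 _ hk']
    · rw [Half.mem_act, alternatingWord_succ, cs.wordProd_concat, geo_mul, geo_simple, sg_ee_self,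
        map_neg]
      refine (P.root _ ((isRoot_ee j).geo _)).2 ?_
      rwa [e2 k hk]

variable (cs)

lemma step_liftable (hb : ∀ i j, alt (a i) (a j) (M i j) = alt (a j) (a i) (M i j)) :
    M.IsLiftable (stepP cs a) := by
  intro i j
  by_cases hij : i = j
  · subst hij; rw [stepP_sq, one_pow]
  by_cases h0 : M i j = 0
  · rw [h0, pow_zero]
  set x := stepP cs a i
  set y := stepP cs a j
  have hx : x * x = 1 := stepP_sq cs a i
  have hy : y * y = 1 := stepP_sq cs a j
  set T := (x * y) ^ M i j with hT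
  have hx' : x⁻¹ = x := inv_eq_of_mul_eq_one_right hx
  have hy' : y⁻¹ = y := inv_eq_of_mul_eq_one_right hy
  have hTi : T⁻¹ = (y * x) ^ M i j := by rw [hT, ← inv_pow, mul_inv_rev, hx', hy']
  have c1 : T * x = x * T⁻¹ := by
    rw [hTi, hT]
    have : x * (y * x) * x⁻¹ = x * y := by group
    rw [← this, conj_pow]; group
  have c2 : T * y = y * T⁻¹ := by
    rw [hTi, hT]
    have : y * (y * x) * y⁻¹ = x * y := by rw [← mul_assoc, hy, one_mul, hy']
    rw [← this, conj_pow]; group
  have inv : ∀ z : Equiv.Perm (Half cs × G), T * z = z * T⁻¹ → ∀ p, T (z p) = z p ↔ T p = p := by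
    intro z hz p
    rw [← Equiv.Perm.mul_apply, hz, Equiv.Perm.mul_apply, z.apply_eq_iff_eq,
      Equiv.Perm.inv_eq_iff_eq]
    exact eq_comm
  have inva : ∀ k, (∀ p, T (alt x y k p) = alt x y k p ↔ T p = p) ∧
      (∀ p, T (alt y x k p) = alt y x k p ↔ T p = p) := by
    intro k
    induction k with
    | zero => simp
    | succ k ih =>
      constructor
      · intro p
        rw [alt_succ, Equiv.Perm.mul_apply, inv x c1, ih.2]
      · intro p
        rw [alt_succ, Equiv.Perm.mul_apply, inv y c2, ih.1]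
  have good : ∀ (P : Half cs) (g : G), ee i ∈ P.s → ee j ∈ P.s → T (P, g) = (P, g) := by
    intro P g hi hj
    rw [← (inva (M i j)).2, hT, pow_eq_alt hx hy, Equiv.Perm.mul_apply, Equiv.Perm.coe_inv,
      Equiv.symm_apply_apply, alt_step, alt_step, Lw_pos a P hij hi hj _ le_rfl,
      Lw_pos a P (Ne.symm hij) hj hi _ (M.symmetric i j).le, altw_prod, altw_prod, hb i j]
    have hw := cs.wordProd_braidWord_eq i j
    unfold braidWord at hw
    rw [M.symmetric j i] at hw
    rw [hw]
  ext1 ⟨P, g⟩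
  obtain ⟨k, h | h⟩ := exists_good P hij h0
  · rw [Equiv.Perm.one_apply, ← (inva k).1, alt_step]
    exact good _ _ h.1 h.2
  · rw [Equiv.Perm.one_apply, ← (inva k).2, alt_step]
    exact good _ _ h.1 h.2

variable {cs}
variable (hb : ∀ i j, alt (a i) (a j) (M i j) = alt (a j) (a i) (M i j))

/-- the signed lift of a group element -/
noncomputable def LL (P : Half cs) (w : W) : G :=
  (cs.lift ⟨stepP cs a, step_liftable cs a hb⟩ w⁻¹ (P, 1)).2

lemma lift_word (ω : List B) (P : Half cs) (g : G) :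
    cs.lift ⟨stepP cs a, step_liftable cs a hb⟩ (cs.wordProd ω)⁻¹ (P, g) =
      (P.act (cs.wordProd ω), g * Lw a P ω) := by
  induction ω generalizing P g with
  | nil => simp [Lw]
  | cons i ω ih =>
    rw [cs.wordProd_cons, mul_inv_rev, map_mul, cs.inv_simple, cs.lift_apply_simple,
      Equiv.Perm.mul_apply, stepP_apply, ih, Lw, Half.act_mul, mul_assoc]

lemma LL_word (P : Half cs) (ω : List B) : LL a hb P (cs.wordProd ω) = Lw a P ω := by
  rw [LL, lift_word a hb, one_mul]

lemma LL_mul (P : Half cs) (w w' : W) :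
    LL a hb P (w * w') = LL a hb P w * LL a hb (P.act w) w' := by
  obtain ⟨ω, rfl⟩ := cs.wordProd_surjective w
  obtain ⟨ω', rfl⟩ := cs.wordProd_surjective w'
  rw [← cs.wordProd_append, LL_word, LL_word, LL_word, Lw_append]

lemma LL_one (P : Half cs) : LL a hb P 1 = 1 := by
  rw [← cs.wordProd_nil, LL_word, Lw]

lemma LL_simple (P : Half cs) (i : B) : LL a hb P (cs.simple i) = a i ^ P.eps (ee i) := by
  rw [← cs.wordProd_singleton, LL_word, Lw, Lw, mul_one]

/-- the lift only depends on the signs of the inversions -/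
lemma LL_congr (w : W) (P Q : Half cs) (h : ∀ ρ ∈ Inv cs w, (ρ ∈ P.s ↔ ρ ∈ Q.s)) :
    LL a hb P w = LL a hb Q w := by
  induction hn : cs.length w using Nat.strong_induction_on generalizing w P Q with
  | _ n ih =>
  by_cases hw : w = 1
  · rw [hw, LL_one, LL_one]
  obtain ⟨i, hi⟩ := cs.exists_leftDescent_of_ne_one hw
  have hi' : cs.length (cs.simple i * w) < cs.length w := hi
  have h1 := ee_mem_inv_of_len hi'
  have h2 : ee i ∉ Inv cs (cs.simple i * w) := fun h' => (ee_mem_inv_iff i w).1 h' h1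
  have h3 : w = cs.simple i * (cs.simple i * w) := by rw [cs.simple_mul_simple_cancel_left]
  rw [h3, LL_mul, LL_mul a hb Q, LL_simple, LL_simple]
  congr 1
  · by_cases h4 : ee i ∈ P.s
    · rw [P.eps_pos h4, Q.eps_pos ((h _ h1).1 h4)]
    · rw [P.eps_neg h4, Q.eps_neg fun h5 => h4 ((h _ h1).2 h5)]
  · refine ih _ (hn ▸ hi') _ _ _ ?_ rfl
    intro ρ hρ
    rw [Half.mem_act, Half.mem_act, geo_simple]
    apply h
    rw [h3]
    exact sg_mem_inv hρ fun hc => h2 (hc ▸ hρ)

end Pool.Agent.H609Z.DA
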