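import Pool.Agent.H609Z.DA.Euler

set_option autoImplicit false
set_option linter.unusedSectionVars false

namespace Pool.Agent.H609Z.DA

open Pool.Agent.Helper741 CoxeterSystem

variable {B : Type*} {M : CoxeterMatrix B} [Fintype B] [DecidableEq B]
variable {W : Type*} [Group W] (cs : CoxeterSystem M W)

/-- the absolute order -/
def LeT (a c : W) : Prop := ∃ l₁ l₂ : List W, MinF cs (l₁ ++ l₂) ∧ l₁.prod = a ∧ (l₁ ++ l₂).prod = c

variable {cs}

lemma leT_iff (a c : W) : LeT cs a c ↔ ∃ l₁ l₂ : List W,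
    (∀ t ∈ l₁ ++ l₂, cs.IsReflection t) ∧ l₁.prod = a ∧ (l₁ ++ l₂).prod = c ∧
      ∀ l : List W, (∀ t ∈ l, cs.IsReflection t) → l.prod = c → (l₁ ++ l₂).length ≤ l.length := by
  constructor
  · rintro ⟨l₁, l₂, h, rfl, rfl⟩
    exact ⟨l₁, l₂, h.1, rfl, rfl, h.2⟩
  · rintro ⟨l₁, l₂, h, rfl, rfl, h'⟩
    exact ⟨l₁, l₂, ⟨h, h'⟩, rfl, rfl⟩

lemma minF_word {ω : List B} (hω : ω.Nodup) : MinF cs (ω.map cs.simple) := by
  have h0 : ∀ t ∈ ω.map cs.simple, cs.IsReflection t := by
    intro t ht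
    obtain ⟨i, _, rfl⟩ := List.mem_map.1 ht
    exact cs.isReflection_simple i
  obtain ⟨l, hl, hmin⟩ := (measure (List.length (α := W))).wf.has_min
    {l | (∀ t ∈ l, cs.IsReflection t) ∧ l.prod = cs.wordProd ω} ⟨ω.map cs.simple, h0, rfl⟩
  have h : MinF cs l := ⟨hl.1, fun l' h1 h2 => not_lt.1 (hmin l' ⟨h1, h2.trans hl.2⟩)⟩
  exact h.he (hurwitz _ ω l rfl hω h hl.2)

lemma MinF.replace {m₁ m₂ l : List W} (h : MinF cs (m₁ ++ m₂)) (hl : MinF cs l)
    (hp : l.prod = m₁.prod) : MinF cs (l ++ m₂) := by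
  refine ⟨fun t ht => (List.mem_append.1 ht).elim (hl.1 t)
    fun ht => h.1 t (List.mem_append_right _ ht), fun l' h1 h2 => ?_⟩
  have e1 := hl.2 m₁ h.left.1 hp.symm
  have e2 := h.2 l' h1 (by rw [h2, List.prod_append, List.prod_append, hp])
  simp only [List.length_append] at e2 ⊢
  omega

lemma MinF.front {m l : List W} (h : MinF cs l) (hm : m.Sublist l) :
    ∃ r, MinF cs (m ++ r) ∧ (m ++ r).prod = l.prod := by
  obtain ⟨r, hr⟩ := he_sublist hm
  exact ⟨r, h.he hr, hr.prod.symm⟩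

section toArtin
variable {pos : B → ℕ} {G : Type*} [Group G] (g : B → G)
variable (hb : ∀ i j, alt (g i) (g j) (M i j) = alt (g j) (g i) (M i j))

include hb in
theorem exists_hat (hpos : Function.Injective pos) {ω : List B}
    (hω : ω.Pairwise fun i j => pos i < pos j) (hall : ∀ i, i ∈ ω) :
    ∃ f : W → G, (∀ a c, LeT cs a c → LeT cs c (cs.wordProd ω) → f a * f (a⁻¹ * c) = f c) ∧
      (∀ u, ¬ LeT cs u (cs.wordProd ω) → f u = 1) ∧ ∀ i, f (cs.simple i) = g i := by
  classical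
  let A : List W → G := fun l => (l.map (aa pos cs g hb)).prod
  have hA : ∀ l l', A (l ++ l') = A l * A l' := fun l l' => by simp [A]
  let f : W → G := fun u => if h : LeT cs u (cs.wordProd ω) then A h.choose else 1
  have hf : ∀ l₁ l₂, MinF cs (l₁ ++ l₂) → (l₁ ++ l₂).prod = cs.wordProd ω → f l₁.prod = A l₁ := by
    intro l₁ l₂ h hp
    have hle : LeT cs l₁.prod (cs.wordProd ω) := ⟨l₁, l₂, h, rfl, hp⟩
    obtain ⟨m₂, h1, h2, h3⟩ := hle.choose_spec
    simp only [f, dif_pos hle]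
    have h4 := h1.replace h.left h2.symm
    have e1 := prod_aa g hb hpos hω hall h1 h3
    have e2 := prod_aa g hb hpos hω hall h4
      (by rw [← h3, List.prod_append, List.prod_append, h2])
    have e3 : A (hle.choose ++ m₂) = A (l₁ ++ m₂) := e1.trans e2.symm
    rw [hA, hA] at e3
    exact mul_right_cancel e3
  have hf' : ∀ m l, m.Sublist l → MinF cs l → l.prod = cs.wordProd ω → f m.prod = A m := by
    intro m l hm h hp
    obtain ⟨r, h1, h2⟩ := h.front hm
    exact hf m r h1 (h2.trans hp)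
  refine ⟨f, ?_, fun u hu => dif_neg hu, fun i => ?_⟩
  · rintro _ _ ⟨l₁, l₂, h, rfl, rfl⟩ ⟨m₁, m₂, h', e1, e2⟩
    have h1 := h'.replace h e1.symm
    have h2 : (l₁ ++ l₂ ++ m₂).prod = cs.wordProd ω := by
      rw [← e2, List.prod_append, List.prod_append (l₁ := m₁), e1]
    have e3 : l₁.prod⁻¹ * (l₁ ++ l₂).prod = l₂.prod := by simp
    rw [e3, hf' l₁ _ (by simp) h1 h2, hf' l₂ _ ?_ h1 h2, hf _ _ h1 h2, hA]
    exact (List.sublist_append_right l₁ l₂).trans (List.sublist_append_left _ _)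
  · have := hf' [cs.simple i] (ω.map cs.simple)
      (List.singleton_sublist.2 (List.mem_map_of_mem (hall i))) (minF_word (nodup_of_pos hω)) rfl
    simpa [A, aa_simple g hb hpos] using this

end toArtin

section fromArtin
variable {H : Type*} [Group H] (γ : W → H) {c : W}
variable (h1 : ∀ a c', LeT cs a c' → LeT cs c' c → γ a * γ (a⁻¹ * c') = γ c')
include h1

lemma gam_prefix (m : List W) : ∀ b, MinF cs (m ++ b) → (m ++ b).prod = c →
    γ m.prod = (m.map γ).prod := by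
  induction m using List.reverseRecOn with
  | nil =>
    intro b h hp
    have := h1 1 1 ⟨[], [], h.left, rfl, rfl⟩ ⟨[], b, h, rfl, hp⟩
    simpa using this
  | append_singleton m t ih =>
    intro b h hp
    have := h1 m.prod (m ++ [t]).prod ⟨m, [t], h.left, rfl, rfl⟩ ⟨m ++ [t], b, h, rfl, hp⟩
    rw [← this, ih (t :: b) (by simpa using h) (by simpa using hp)]
    simp

lemma gam_sub {m l : List W} (hm : m.Sublist l) (h : MinF cs l) (hp : l.prod = c) :
    γ m.prod = (m.map γ).prod := by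
  obtain ⟨r, h2, h3⟩ := h.front hm
  exact gam_prefix γ h1 m r h2 (h3.trans hp)

lemma gam_move {a b : List W} {p q : W} (h : MinF cs (a ++ p :: q :: b))
    (hp : (a ++ p :: q :: b).prod = c) : γ p * γ q = γ q * γ (q⁻¹ * p * q) := by
  have hm : HE (a ++ p :: q :: b) (a ++ q :: (q⁻¹ * p * q) :: b) := .rel _ _ (Move.mk a p q b)
  have e1 := gam_sub γ h1 (m := [p, q]) ((by simp : [p, q].Sublist (p :: q :: b)).trans
    (List.sublist_append_right _ _)) h hp
  have e2 := gam_sub γ h1 (m := [q, q⁻¹ * p * q])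
    ((by simp : [q, q⁻¹ * p * q].Sublist (q :: (q⁻¹ * p * q) :: b)).trans
    (List.sublist_append_right _ _)) (h.he hm) (hm.prod.symm.trans hp)
  simp only [List.prod_cons, List.prod_nil, mul_one, List.map_cons, List.map_nil] at e1 e2
  rw [← e1, ← e2]
  congr 1
  group

lemma gam_mem (K : Subgroup H) {l l' : List W} (hl : HE l l') (h : MinF cs l) (hp : l.prod = c)
    (hK : ∀ t ∈ l, γ t ∈ K) : ∀ t ∈ l', γ t ∈ K := by
  have := HE.ind (Q := fun m => MinF cs m ∧ m.prod = c ∧ ∀ t ∈ m, γ t ∈ K) (fun a p q b => ?_) hl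
  · exact (this.1 ⟨h, hp, hK⟩).2.2
  have hm : HE (a ++ p :: q :: b) (a ++ q :: (q⁻¹ * p * q) :: b) := .rel _ _ (Move.mk a p q b)
  constructor
  · rintro ⟨e1, e2, e3⟩
    refine ⟨e1.he hm, hm.prod.symm.trans e2, ?_⟩
    have e4 := gam_move γ h1 e1 e2
    have e5 : γ (q⁻¹ * p * q) = (γ q)⁻¹ * (γ p * γ q) := by rw [e4]; group
    simp only [List.mem_append, List.mem_cons, or_imp, forall_and, forall_eq] at e3 ⊢
    refine ⟨e3.1, e3.2.2.1, ?_, e3.2.2.2⟩
    rw [e5]
    exact K.mul_mem (K.inv_mem e3.2.2.1) (K.mul_mem e3.2.1 e3.2.2.1)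
  · rintro ⟨e1, e2, e3⟩
    have e1' := e1.he (.symm _ _ hm)
    have e2' := hm.prod.trans e2
    refine ⟨e1', e2', ?_⟩
    have e4 := gam_move γ h1 e1' e2'
    have e5 : γ p = γ q * γ (q⁻¹ * p * q) * (γ q)⁻¹ := by rw [← e4]; group
    simp only [List.mem_append, List.mem_cons, or_imp, forall_and, forall_eq] at e3 ⊢
    refine ⟨e3.1, ?_, e3.2.1, e3.2.2.2⟩
    rw [e5]
    exact K.mul_mem (K.mul_mem e3.2.1 e3.2.2.1) (K.inv_mem e3.2.1)

lemma gam_braid {p q : W} {r : List W} (h : MinF cs ([p, q] ++ r)) (hp : ([p, q] ++ r).prod = c)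
    {m : ℕ} (hm : (p * q) ^ m = 1) : alt (γ p) (γ q) m = alt (γ q) (γ p) m := by
  have hp2 : p * p = 1 := (h.1 p (by simp)).mul_self
  have hq2 : q * q = 1 := (h.1 q (by simp)).mul_self
  have hp' : p⁻¹ = p := inv_eq_of_mul_eq_one_right hp2
  have hq' : q⁻¹ = q := inv_eq_of_mul_eq_one_right hq2
  let X : ℤ → H := fun k => γ ((p * q) ^ k * p)
  have e0 : ∀ k : ℤ, (p * q) ^ k * p * (p * q) = (p * q) ^ (k - 1) * p := by
    intro k
    rw [mul_assoc, ← mul_assoc p, hp2, one_mul, zpow_sub_one, mul_inv_rev, hp', hq', mul_assoc,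
      mul_assoc, hp2, mul_one]
  have hX : ∀ k, X k * X (k - 1) = γ (p * q) := by
    intro k
    have hhe := (he_pair hp2 hq2 k).ctx [] r
    simp only [List.nil_append] at hhe
    have e1 := gam_prefix γ h1 _ r (h.he hhe) (hhe.prod.symm.trans hp)
    rw [← (he_pair hp2 hq2 k).prod, e0] at e1
    simpa using e1.symm
  have x0 : X 0 = γ p := by simp [X]
  have x1 : X (-1) = γ q := by
    simp only [X]
    rw [zpow_neg_one, mul_inv_rev, hp', hq', mul_assoc, hp2, mul_one]
  have hΔ : γ (p * q) = γ p * γ q := by rw [← hX 0, x0, zero_sub, x1]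
  have hstep : ∀ k, γ (p * q) * X (k - 2) = X k * γ (p * q) := by
    intro k
    have a1 := hX k
    have a2 := hX (k - 1)
    rw [show k - 1 - 1 = k - 2 by ring] at a2
    calc γ (p * q) * X (k - 2) = X k * X (k - 1) * X (k - 2) := by rw [a1]
      _ = _ := by rw [mul_assoc, a2]
  have hpow : ∀ (n : ℕ) (k : ℤ), γ (p * q) ^ n * X (k - 2 * n) = X k * γ (p * q) ^ n := by
    intro n
    induction n with
    | zero => simp
    | succ n ih =>
      intro k
      rw [pow_succ, mul_assoc, show k - 2 * ((n + 1 : ℕ) : ℤ) = k - 2 * n - 2 by push_cast; ring,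
        hstep, ← mul_assoc, ih, mul_assoc]
  have hXm : X (-(m : ℤ)) = γ p := by
    simp only [X]
    rw [zpow_neg, zpow_natCast, hm, inv_one, one_mul]
  rcases Nat.even_or_odd' m with ⟨n, rfl | rfl⟩
  · have := hpow n 0
    rw [show (0 : ℤ) - 2 * n = -((2 * n : ℕ) : ℤ) by push_cast; ring, hXm, x0, hΔ] at this
    rw [alt_mul_two, alt_mul_two]
    have e : γ q * γ p = (γ p)⁻¹ * (γ p * γ q) * (γ p)⁻¹⁻¹ := by group
    rw [e, conj_pow, inv_inv, mul_assoc, this]
    group
  · have := hpow n (-1)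
    rw [show (-1 : ℤ) - 2 * n = -((2 * n + 1 : ℕ) : ℤ) by push_cast; ring, hXm, x1, hΔ] at this
    rw [alt_mul_two_add_one, this, alt_succ, alt_mul_two]

lemma gam_rel {ω : List B} (hω : ω.Nodup) (hall : ∀ i, i ∈ ω) (hc : c = cs.wordProd ω) (i j : B) :
    alt (γ (cs.simple i)) (γ (cs.simple j)) (M i j) =
      alt (γ (cs.simple j)) (γ (cs.simple i)) (M i j) := by
  have key : ∀ i j, [i, j].Sublist ω → alt (γ (cs.simple i)) (γ (cs.simple j)) (M i j) =
      alt (γ (cs.simple j)) (γ (cs.simple i)) (M i j) := by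
    intro i j h
    obtain ⟨r, h2, h3⟩ := (minF_word (cs := cs) hω).front (h.map cs.simple)
    exact gam_braid γ h1 h2 (h3.trans hc.symm) (cs.simple_mul_simple_pow i j)
  by_cases hij : i = j
  · rw [hij]
  obtain ⟨a, b, rfl⟩ := List.append_of_mem (hall i)
  rcases List.mem_append.1 (hall j) with h | h
  · rw [M.symmetric i j]
    refine (key j i ?_).symm
    exact (List.singleton_sublist.2 h).append (by simp : [i].Sublist (i :: b))
  · refine key i j ((List.Sublist.cons_cons i (List.singleton_sublist.2 ?_)).trans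
      (List.sublist_append_right _ _))
    exact (List.mem_cons.1 h).resolve_left (Ne.symm hij)

lemma gam_gen {ω : List B} (hω : ω.Nodup) (hc : c = cs.wordProd ω) (K : Subgroup H)
    (hK : ∀ i, γ (cs.simple i) ∈ K) {u : W} (hu : LeT cs u c) : γ u ∈ K := by
  obtain ⟨l₁, l₂, h, rfl, hp⟩ := hu
  have hhe := hurwitz _ ω _ rfl hω h (hp.trans hc)
  have := gam_mem γ h1 K (.symm _ _ hhe) (minF_word hω) hc.symm (fun t ht => by
    obtain ⟨i, _, rfl⟩ := List.mem_map.1 ht
    exact hK i)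
  rw [gam_prefix γ h1 l₁ l₂ h hp]
  refine K.list_prod_mem fun x hx => ?_
  obtain ⟨t, ht, rfl⟩ := List.mem_map.1 hx
  exact this t (List.mem_append_left _ ht)

end fromArtin

/-- the dual Artin group is isomorphic to the Artin group -/
theorem main {pos : B → ℕ} (hpos : Function.Injective pos) {ω : List B}
    (hω : ω.Pairwise fun i j => pos i < pos j) (hall : ∀ i, i ∈ ω) :
    ∃ e : Artin M ≃* PresentedGroup
      ({r : FreeGroup W | ∃ a c : W, LeT cs a c ∧ LeT cs c (cs.wordProd ω) ∧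
          r = FreeGroup.of a * FreeGroup.of (a⁻¹ * c) * (FreeGroup.of c)⁻¹} ∪
        {r : FreeGroup W | ∃ u : W, ¬ LeT cs u (cs.wordProd ω) ∧ r = FreeGroup.of u}),
      ∀ i, e (Artin.gen M i) = PresentedGroup.of (cs.simple i) := by
  set R := ({r : FreeGroup W | ∃ a c : W, LeT cs a c ∧ LeT cs c (cs.wordProd ω) ∧
          r = FreeGroup.of a * FreeGroup.of (a⁻¹ * c) * (FreeGroup.of c)⁻¹} ∪
        {r : FreeGroup W | ∃ u : W, ¬ LeT cs u (cs.wordProd ω) ∧ r = FreeGroup.of u}) with hR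
  let γ : W → PresentedGroup R := PresentedGroup.of
  have h1 : ∀ a c', LeT cs a c' → LeT cs c' (cs.wordProd ω) → γ a * γ (a⁻¹ * c') = γ c' := by
    intro a c' ha hc
    have := PresentedGroup.one_of_mem (rels := R) (Or.inl ⟨a, c', ha, hc, rfl⟩)
    rw [map_mul, map_mul, map_inv, mul_inv_eq_one] at this
    exact this
  have h2 : ∀ u, ¬ LeT cs u (cs.wordProd ω) → γ u = 1 := fun u hu =>
    PresentedGroup.one_of_mem (rels := R) (Or.inr ⟨u, hu, rfl⟩)
  let φ : Artin M →* PresentedGroup R :=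
    Artin.lift (fun i => γ (cs.simple i)) (gam_rel γ h1 (nodup_of_pos hω) hall rfl)
  have hφ : ∀ i, φ (Artin.gen M i) = γ (cs.simple i) := fun i => Artin.lift_gen _ _ i
  obtain ⟨f, hf1, hf2, hf3⟩ := exists_hat (cs := cs) (Artin.gen M) Artin.rel hpos hω hall
  let ψ : PresentedGroup R →* Artin M := PresentedGroup.toGroup (f := f) (by
    rintro _ (⟨a, c, ha, hc, rfl⟩ | ⟨u, hu, rfl⟩)
    · simp [hf1 a c ha hc]
    · simp [hf2 u hu])
  have hψφ : ψ.comp φ = MonoidHom.id _ := Artin.hom_ext fun i => by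
    rw [MonoidHom.comp_apply, hφ]
    simp [ψ, γ, hf3]
  have hinj : Function.Injective φ :=
    Function.LeftInverse.injective (g := ψ) fun x => DFunLike.congr_fun hψφ x
  have hsurj : Function.Surjective φ := by
    rw [← MonoidHom.range_eq_top, eq_top_iff, ← PresentedGroup.closure_range_of,
      Subgroup.closure_le]
    rintro _ ⟨u, rfl⟩
    by_cases hu : LeT cs u (cs.wordProd ω)
    · exact gam_gen γ h1 (nodup_of_pos hω) rfl φ.range (fun i => ⟨_, hφ i⟩) hu
    · change γ u ∈ φ.range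
      rw [h2 u hu]
      exact one_mem _
  exact ⟨MulEquiv.ofBijective φ ⟨hinj, hsurj⟩, hφ⟩

end Pool.Agent.H609Z.DA
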