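import Pool.Agent.H609Z.DA.Roots

set_option autoImplicit false
set_option linter.unusedSectionVars false

namespace Pool.Agent.H609Z.DA

open Pool.Agent.Helper741 CoxeterSystem

section general
variable {W : Type*} [Group W]

/-- a Hurwitz move -/
inductive Move : List W → List W → Prop
  | mk (a : List W) (p q : W) (b : List W) : Move (a ++ p :: q :: b) (a ++ q :: (q⁻¹ * p * q) :: b)

/-- Hurwitz equivalence -/
abbrev HE (l l' : List W) : Prop := Relation.EqvGen Move l l'

lemma HE.ind {Q : List W → Prop} (h : ∀ a p q b, Q (a ++ p :: q :: b) ↔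
    Q (a ++ q :: (q⁻¹ * p * q) :: b)) {l l' : List W} (hl : HE l l') : Q l ↔ Q l' := by
  induction hl with
  | rel x y hxy => cases hxy; exact h _ _ _ _
  | refl x => rfl
  | symm x y _ ih => exact ih.symm
  | trans x y z _ _ ih1 ih2 => exact ih1.trans ih2

lemma HE.prod {l l' : List W} (hl : HE l l') : l.prod = l'.prod := by
  have := HE.ind (Q := fun m => m.prod = l'.prod) (fun a p q b => by
    have : (a ++ p :: q :: b).prod = (a ++ q :: (q⁻¹ * p * q) :: b).prod := by
      simp only [List.prod_append, List.prod_cons]; group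
    rw [this]) hl
  exact this.2 rfl

lemma HE.length {l l' : List W} (hl : HE l l') : l.length = l'.length :=
  (HE.ind (Q := fun m => m.length = l'.length) (fun a p q b => by simp) hl).2 rfl

lemma HE.ctx {l l' : List W} (hl : HE l l') (a b : List W) : HE (a ++ l ++ b) (a ++ l' ++ b) := by
  induction hl with
  | rel x y hxy =>
    cases hxy with
    | mk a' p q b' =>
      have := Move.mk (a ++ a') p q (b' ++ b)
      simp only [List.append_assoc, List.cons_append] at this ⊢
      exact .rel _ _ this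
  | refl x => exact .refl _
  | symm x y _ ih => exact .symm _ _ ih
  | trans x y z _ _ ih1 ih2 => exact .trans _ _ _ ih1 ih2

lemma he_right (p : W) (l : List W) : HE (p :: l) (l ++ [l.prod⁻¹ * p * l.prod]) := by
  induction l generalizing p with
  | nil => simp only [List.nil_append, List.prod_nil, inv_one, one_mul, mul_one]; exact .refl _
  | cons q l ih =>
    refine .trans _ _ _ (.rel _ _ (Move.mk [] p q l)) ?_
    have := (ih (q⁻¹ * p * q)).ctx [q] []
    simp only [List.append_nil, List.cons_append, List.nil_append] at this ⊢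
    have e : (q :: l).prod⁻¹ * p * (q :: l).prod = l.prod⁻¹ * (q⁻¹ * p * q) * l.prod := by
      rw [List.prod_cons]; group
    rw [e]
    exact this

lemma he_pass (p : W) (m b : List W) : HE (p :: (m ++ b)) (m ++ (m.prod⁻¹ * p * m.prod) :: b) := by
  have := (he_right p m).ctx [] b
  simpa using this

lemma he_sublist {m l : List W} (h : m.Sublist l) : ∃ r, HE l (m ++ r) := by
  induction h with
  | slnil => exact ⟨[], .refl _⟩
  | @cons m l p _ ih =>
    obtain ⟨r, hr⟩ := ih
    refine ⟨_, .trans _ _ _ ?_ (he_pass p m r)⟩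
    simpa using hr.ctx [p] []
  | @cons_cons m l p _ ih =>
    obtain ⟨r, hr⟩ := ih
    exact ⟨r, by simpa using hr.ctx [p] []⟩

lemma he_pair {p q : W} (hp : p * p = 1) (hq : q * q = 1) (k : ℤ) :
    HE [p, q] [(p * q) ^ k * p, (p * q) ^ k * p * (p * q)] := by
  have hp' : p⁻¹ = p := inv_eq_of_mul_eq_one_right hp
  have hq' : q⁻¹ = q := inv_eq_of_mul_eq_one_right hq
  have hc : ∀ k : ℤ, p * (p * q) ^ k = (p * q) ^ (-k) * p := by
    intro k
    have : p * (p * q) * p⁻¹ = (p * q)⁻¹ := by
      rw [mul_inv_rev, hp', hq', ← mul_assoc, hp, one_mul]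
    rw [zpow_neg, ← inv_zpow, ← this, conj_zpow]; group
  have step : ∀ k : ℤ, HE [(p * q) ^ k * p, (p * q) ^ k * p * (p * q)]
      [(p * q) ^ (k - 1) * p, (p * q) ^ (k - 1) * p * (p * q)] := by
    intro k
    have h1 := hc 1
    rw [zpow_one] at h1
    generalize p * q = ρ at h1 ⊢
    have e1 : ρ ^ k * p * ρ = ρ ^ (k - 1) * p := by
      rw [mul_assoc, h1]; group
    have e2 : (ρ ^ k * p * ρ)⁻¹ * (ρ ^ k * p) * (ρ ^ k * p * ρ) = ρ ^ (k - 1) * p * ρ := by
      rw [← e1]
      calc _ = ρ⁻¹ * (ρ ^ k * p * ρ) := by group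
        _ = ρ⁻¹ * ρ ^ k * (p * ρ) := by group
        _ = ρ ^ k * (ρ ^ (-1 : ℤ) * p) * ρ := by group
        _ = _ := by rw [← h1]; group
    have h := Move.mk [] (ρ ^ k * p) (ρ ^ k * p * ρ) []
    rw [e2] at h
    simp only [List.nil_append] at h
    have h' : Move [ρ ^ k * p, ρ ^ k * p * ρ] [ρ ^ (k - 1) * p, ρ ^ (k - 1) * p * ρ] := by
      convert h using 2
      exact e1.symm
    exact .rel _ _ h'
  induction k using Int.induction_on with
  | zero =>
    have : p * (p * q) = q := by rw [← mul_assoc, hp, one_mul]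
    simp only [zpow_zero, one_mul, this]
    exact .refl _
  | succ k ih =>
    have := step (k + 1)
    rw [add_sub_cancel_right] at this
    exact .trans _ _ _ ih (.symm _ _ this)
  | pred k ih => exact .trans _ _ _ ih (step _)

end general

variable {B : Type*} {M : CoxeterMatrix B} [Fintype B] [DecidableEq B]
variable {W : Type*} [Group W] {cs : CoxeterSystem M W}

lemma HE.refl_iff {l l' : List W} (hl : HE l l') :
    (∀ t ∈ l, cs.IsReflection t) ↔ (∀ t ∈ l', cs.IsReflection t) := by
  refine HE.ind (Q := fun m => ∀ t ∈ m, cs.IsReflection t) (fun a p q b => ?_) hl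
  simp only [List.mem_append, List.mem_cons, or_imp, forall_and, forall_eq]
  have : cs.IsReflection (q⁻¹ * p * q) ↔ cs.IsReflection p := by
    have := cs.isReflection_conj_iff q⁻¹ p
    rwa [inv_inv] at this
  rw [this]
  tauto

lemma sum_neg_of (S : Finset (B → ℝ)) {r : W} (hr : cs.IsReflection r)
    (h : ∀ ρ ∈ S, -geo cs r ρ ∈ S) : ∃ c : ℝ, ∑ ρ ∈ S, ρ = c • rt cs r := by
  have hrr : ∀ v, geo cs r (geo cs r v) = v := fun v => by rw [← geo_mul, hr.mul_self, geo_one]
  have h2 : ∑ ρ ∈ S, ρ = ∑ ρ ∈ S, -geo cs r ρ := by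
    refine Finset.sum_nbij' (fun ρ => -geo cs r ρ) (fun ρ => -geo cs r ρ) h h ?_ ?_ ?_
    · intro ρ _; simp [hrr]
    · intro ρ _; simp [hrr]
    · intro ρ _; simp [hrr]
  rw [Finset.sum_neg_distrib, ← map_sum, (rt_spec hr).1.2] at h2
  refine ⟨bf M (rt cs r) (∑ ρ ∈ S, ρ) / 2, ?_⟩
  set σ := ∑ ρ ∈ S, ρ
  calc σ = (1 / 2 : ℝ) • (σ + σ) := by module
    _ = (1 / 2 : ℝ) • (σ + -(σ - bf M (rt cs r) σ • rt cs r)) := by rw [← h2]
    _ = _ := by module

/-- peak lowering -/
lemma peak {x p q : W} (hp : cs.IsReflection p) (hq : cs.IsReflection q) (hpq : p ≠ q)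
    (h1 : cs.length (x * p) < cs.length x) (h2 : cs.length (x * q) < cs.length x) :
    ∃ k : ℤ, cs.length (x * (p * q) ^ k) < cs.length x := by
  classical
  by_contra hcon
  push Not at hcon
  have hc : ∀ k : ℤ, p * (p * q) ^ k = (p * q) ^ (-k) * p := by
    intro k
    have : p * (p * q) * p⁻¹ = (p * q)⁻¹ := by
      rw [mul_inv_rev, hp.inv, hq.inv, ← mul_assoc, hp.mul_self, one_mul]
    rw [zpow_neg, ← inv_zpow, ← this, conj_zpow]; group
  have hR : ∀ k : ℤ, cs.IsReflection ((p * q) ^ k * p) := fun k =>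
    ((he_pair hp.mul_self hq.mul_self k).refl_iff.1 (by simp [hp, hq])) _ (by simp)
  have hprod : ∀ j k : ℤ, (p * q) ^ j * p * ((p * q) ^ k * p) = (p * q) ^ (j - k) := by
    intro j k
    rw [mul_assoc, ← mul_assoc p, hc, mul_assoc, hp.mul_self]; group
  let I : Set (B → ℝ) := {ρ | (∃ k : ℤ, ρ = rt cs ((p * q) ^ k * p)) ∧ geo cs x ρ ≤ 0}
  have hI : I.Finite := (inv_finite (cs := cs) x⁻¹).subset (by
    rintro _ ⟨⟨k, rfl⟩, h⟩
    exact ⟨(rt_spec (hR k)).1.1, (rt_spec (hR k)).2, by rwa [inv_inv]⟩)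
  have key : ∀ j : ℤ, cs.length (x * ((p * q) ^ j * p)) < cs.length x →
      ∃ c : ℝ, ∑ ρ ∈ hI.toFinset, ρ = c • rt cs ((p * q) ^ j * p) := by
    intro j hj
    set r := (p * q) ^ j * p with hr
    have hpos : ∀ k : ℤ, 0 ≤ geo cs (x * r) (rt cs ((p * q) ^ k * p)) := by
      intro k
      apply nonneg_of_len (hR k)
      rw [mul_assoc, hr, hprod]
      exact hj.le.trans (hcon _)
    refine sum_neg_of _ (hR j) fun ρ hρ => ?_
    rw [Set.Finite.mem_toFinset] at hρ ⊢
    obtain ⟨⟨k, rfl⟩, hk⟩ := hρ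
    have e : r * ((p * q) ^ k * p) * r⁻¹ = (p * q) ^ (2 * j - k) * p := by
      rw [(hR j).inv, hr, hprod]; group
    have hx : ∀ v, geo cs x v = geo cs (x * r) (geo cs r v) := by
      intro v
      rw [← geo_mul, mul_assoc, (hR j).mul_self, mul_one]
    rcases rt_conj (hR k) r with h | h
    · exfalso
      rw [hx, ← h, e] at hk
      exact ((rt_spec (hR _)).1.1.geo _).not_both (hpos _) hk
    · refine ⟨⟨2 * j - k, by rw [← e, h]⟩, ?_⟩
      rw [map_neg, ← geo_mul]
      exact neg_nonpos.2 (hpos k)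
  have ep : (p * q) ^ (0 : ℤ) * p = p := by simp
  have eq : (p * q) ^ (-1 : ℤ) * p = q := by
    rw [zpow_neg_one, mul_inv_rev, hp.inv, hq.inv, mul_assoc, hp.mul_self, mul_one]
  obtain ⟨c, hc1⟩ := key 0 (by rwa [ep])
  obtain ⟨d, hd1⟩ := key (-1) (by rwa [eq])
  rw [ep] at hc1
  rw [eq] at hd1
  have hmem : rt cs p ∈ hI.toFinset := by
    rw [Set.Finite.mem_toFinset]
    exact ⟨⟨0, by rw [ep]⟩, nonpos_of_len hp h1.le⟩
  have hge : rt cs p ≤ ∑ ρ ∈ hI.toFinset, ρ := by
    refine Finset.single_le_sum (f := fun ρ => ρ) (fun ρ hρ => ?_) hmem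
    rw [Set.Finite.mem_toFinset] at hρ
    obtain ⟨⟨k, rfl⟩, _⟩ := hρ
    exact (rt_spec (hR k)).2
  have hc0 : c ≠ 0 := by
    rintro rfl
    rw [hc1, zero_smul] at hge
    exact (rt_spec hp).1.1.not_both (rt_spec hp).2 hge
  have e : rt cs p = rt cs q := by
    refine (rt_spec hp).1.1.eq_of_smul (rt_spec hq).1.1 (rt_spec hp).2 (rt_spec hq).2
      (c := c⁻¹ * d) ?_
    rw [mul_smul, ← hd1, hc1, smul_smul, inv_mul_cancel₀ hc0, one_smul]
  exact hpq ((rt_spec hp).1.unique (e ▸ (rt_spec hq).1))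

variable (cs)

/-- a minimal factorisation into reflections -/
def MinF (l : List W) : Prop := (∀ t ∈ l, cs.IsReflection t) ∧
  ∀ l' : List W, (∀ t ∈ l', cs.IsReflection t) → l'.prod = l.prod → l.length ≤ l'.length

/-- sum of the lengths of the prefixes -/
noncomputable def wt : W → List W → ℕ
  | _, [] => 0
  | x, t :: l => cs.length (x * t) + wt (x * t) l

variable {cs}

lemma MinF.he {l l' : List W} (h : MinF cs l) (hl : HE l l') : MinF cs l' :=
  ⟨hl.refl_iff.1 h.1, fun m hm hp => hl.length ▸ h.2 m hm (hp.trans hl.prod.symm)⟩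

lemma MinF.left {l l' : List W} (h : MinF cs (l ++ l')) : MinF cs l := by
  refine ⟨fun t ht => h.1 t (List.mem_append_left _ ht), fun m hm hp => ?_⟩
  have := h.2 (m ++ l') (fun t ht => (List.mem_append.1 ht).elim (hm t)
    fun ht => h.1 t (List.mem_append_right _ ht)) (by simp [hp])
  simpa using this

lemma MinF.ne {a b : List W} {p q : W} (h : MinF cs (a ++ p :: q :: b)) : p ≠ q := by
  rintro rfl
  have hp : cs.IsReflection p := h.1 p (by simp)
  have := h.2 (a ++ b) (fun t ht => h.1 t (by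
    rcases List.mem_append.1 ht with h | h <;> simp [h])) (by
      simp only [List.prod_append, List.prod_cons]
      rw [← mul_assoc p, hp.mul_self, one_mul])
  simp only [List.length_append, List.length_cons] at this
  omega

lemma wt_append (x : W) (a b : List W) : wt cs x (a ++ b) = wt cs x a + wt cs (x * a.prod) b := by
  induction a generalizing x with
  | nil => simp [wt]
  | cons t a ih => rw [List.cons_append, wt, wt, ih, List.prod_cons, mul_assoc, add_assoc]

lemma exists_incr {l : List W} (h : MinF cs l) : ∃ l', HE l l' ∧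
    ∀ a t b, l' = a ++ t :: b → cs.length a.prod < cs.length (a.prod * t) := by
  obtain ⟨l', hl', hmin⟩ := (measure (wt cs 1)).wf.has_min {l' | HE l l'} ⟨l, .refl _⟩
  refine ⟨l', hl', fun a => ?_⟩
  have h' := h.he hl'
  induction a using List.reverseRecOn with
  | nil =>
    intro t b e
    have ht : cs.IsReflection t := h'.1 t (by simp [e])
    apply len_gt ht
    simpa using (rt_spec ht).2
  | append_singleton a p ih =>
    intro q b e
    have e' : l' = a ++ p :: q :: b := by simp [e]
    have h1 := ih p (q :: b) e'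
    have hp : cs.IsReflection p := h'.1 p (by simp [e'])
    have hq : cs.IsReflection q := h'.1 q (by simp [e'])
    rw [List.prod_append, List.prod_singleton]
    by_contra hcon
    have h2 : cs.length (a.prod * p * q) < cs.length (a.prod * p) :=
      len_lt hq (nonpos_of_len hq (not_lt.1 hcon))
    obtain ⟨k, hk⟩ := peak (x := a.prod * p) hp hq (e' ▸ h').ne
      (by rwa [mul_assoc, hp.mul_self, mul_one]) h2
    have hhe := (he_pair hp.mul_self hq.mul_self (-k)).ctx a b
    have e2 : a ++ [p, q] ++ b = l' := by simp [e']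
    rw [e2] at hhe
    refine hmin _ (.trans _ _ _ hl' hhe) ?_
    change wt cs 1 _ < wt cs 1 _
    have hc : p * (p * q) ^ k = (p * q) ^ (-k) * p := by
      have : p * (p * q) * p⁻¹ = (p * q)⁻¹ := by
        rw [mul_inv_rev, hp.inv, hq.inv, ← mul_assoc, hp.mul_self, one_mul]
      rw [zpow_neg, ← inv_zpow, ← this, conj_zpow]; group
    have e3 : (p * q) ^ (-k) * p * ((p * q) ^ (-k) * p * (p * q)) = p * q := by
      have := (he_pair hp.mul_self hq.mul_self (-k)).prod
      simpa using this.symm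
    rw [← e2, wt_append, wt_append, wt_append, wt_append]
    simp only [wt, List.prod_append, List.prod_cons, List.prod_nil, mul_one, one_mul, add_zero]
    rw [e3, mul_assoc a.prod _ ((p * q) ^ (-k) * p * (p * q)), e3, ← hc, ← mul_assoc a.prod p,
      mul_assoc a.prod p q]
    omega

/-- transitivity of the Hurwitz action for (parabolic) Coxeter elements -/
theorem hurwitz (n : ℕ) : ∀ (ω : List B) (l : List W), l.length = n → ω.Nodup → MinF cs l →
    l.prod = cs.wordProd ω → HE l (ω.map cs.simple) := by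
  induction n with
  | zero =>
    intro ω l hl hω _ hp
    rw [List.length_eq_zero_iff.1 hl] at hp ⊢
    rw [nodup_ne_one hω hp.symm]
    exact .refl _
  | succ n ih =>
    intro ω l hl hω h hp
    obtain ⟨l', hl', hinc⟩ := exists_incr h
    have h' := h.he hl'
    have hlen := hl'.length
    obtain ⟨a, t, rfl⟩ : ∃ a t, l' = a ++ [t] := by
      rcases List.eq_nil_or_concat l' with rfl | ⟨a, t, rfl⟩
      · simp [hl] at hlen
      · exact ⟨a, t, List.concat_eq_append⟩
    have ht : cs.IsReflection t := h'.1 t (by simp)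
    have h1 := hinc a t [] rfl
    have hp' : a.prod * t = cs.wordProd ω := by
      rw [← hp, hl'.prod]; simp
    have ha : a.prod = cs.wordProd ω * t := by rw [← hp', mul_assoc, ht.mul_self, mul_one]
    have h2 : geo cs (cs.wordProd ω) (rt cs t) ≤ 0 := by
      apply nonpos_of_len ht
      rw [← ha, ← hp']
      exact h1.le
    obtain ⟨ω₁, i, ω₂, rfl, h3⟩ := strong_exchange (rt_spec ht).1 (rt_spec ht).2 ω h2
    rw [exchange_prod h3] at ha
    have h4 := ih (ω₁ ++ ω₂) a (by simp [hl] at hlen; omega)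
      (hω.sublist (by simp)) h'.left ha
    refine .trans _ _ _ hl' (.trans _ _ _ (by simpa using h4.ctx [] [t]) (.symm _ _ ?_))
    have h5 := (he_right (cs.simple i) (ω₂.map cs.simple)).ctx (ω₁.map cs.simple) []
    have e : (ω₂.map cs.simple).prod⁻¹ * cs.simple i * (ω₂.map cs.simple).prod = t := by
      change (cs.wordProd ω₂)⁻¹ * cs.simple i * cs.wordProd ω₂ = t
      rw [mul_assoc, ← h3]; group
    rw [e] at h5
    simpa using h5

end Pool.Agent.H609Z.DA
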