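import Pool.Agent.H609Z.DA.Expo
import Pool.Agent.H609Z.DA.Hurwitz

set_option autoImplicit false
set_option linter.unusedSectionVars false

namespace Pool.Agent.H609Z.DA

open Pool.Agent.Helper741 CoxeterSystem

variable {B : Type*} (M : CoxeterMatrix B) [Fintype B] [DecidableEq B] (pos : B → ℕ)

/-- the Euler form of the ordering `pos` -/
noncomputable def Eu : LinearMap.BilinForm ℝ (B → ℝ) :=
  Matrix.toBilin' (Matrix.of fun i j =>
    if pos i < pos j then -2 * cc M i j else if i = j then 1 else 0)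

lemma Eu_ee_ee (i j : B) : Eu M pos (ee i) (ee j) =
    if pos i < pos j then -2 * cc M i j else if i = j then 1 else 0 := by
  simp [Eu, ee, Matrix.toBilin'_single]

variable {pos}

lemma Eu_add (hpos : Function.Injective pos) (u v : B → ℝ) :
    Eu M pos u v + Eu M pos v u = bf M u v := by
  have : Eu M pos + (Eu M pos).flip = bf M := lin_ext fun i => lin_ext fun j => by
    rw [LinearMap.add_apply, LinearMap.add_apply, LinearMap.BilinForm.flip_apply, Eu_ee_ee,
      Eu_ee_ee, bf_ee_ee]
    rcases lt_trichotomy (pos i) (pos j) with h | h | h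
    · have hne : j ≠ i := fun e => by simp [e] at h
      simp [h, h.not_gt, hne]
    · obtain rfl := hpos h
      simp; norm_num
    · have hne : i ≠ j := fun e => by simp [e] at h
      simp [h, h.not_gt, hne, cc_symm M j i]
  rw [← this]
  rfl

variable {M}
variable {W : Type*} [Group W] {cs : CoxeterSystem M W}

lemma Eu_root (hpos : Function.Injective pos) {ρ : B → ℝ} (h : IsRoot cs ρ) :
    Eu M pos ρ ρ = 1 := by
  have := Eu_add M hpos ρ ρ
  rw [h.norm] at this
  linarith

variable (cs pos)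

/-- exceptional sequences of reflections -/
def Exc (l : List W) : Prop := (∀ t ∈ l, cs.IsReflection t) ∧
  l.Pairwise fun t t' => Eu M pos (rt cs t') (rt cs t) = 0

variable {cs pos}

lemma rt_move {p q : W} (hp : cs.IsReflection p) (hq : cs.IsReflection q) :
    ∃ e : ℝ, e * e = 1 ∧
      rt cs (q⁻¹ * p * q) = e • (rt cs p - bf M (rt cs q) (rt cs p) • rt cs q) := by
  have h := rt_conj hp q⁻¹
  rw [inv_inv, hq.inv, (rt_spec hq).1.2] at h
  rw [hq.inv]
  rcases h with h | h
  · exact ⟨1, by norm_num, by rw [h, one_smul]⟩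
  · exact ⟨-1, by norm_num, by rw [h, neg_smul, one_smul]⟩

lemma exc_he (hpos : Function.Injective pos) {l l' : List W} (h : HE l l') :
    Exc pos cs l ↔ Exc pos cs l' := by
  refine HE.ind (fun a p q b => ?_) h
  have hr := (HE.refl_iff (cs := cs) (.rel _ _ (Move.mk a p q b)))
  unfold Exc
  rw [← hr]
  refine and_congr_right fun hl => ?_
  have hp : cs.IsReflection p := hl p (by simp)
  have hq : cs.IsReflection q := hl q (by simp)
  obtain ⟨e, he, hm⟩ := rt_move hp hq
  have he0 : e ≠ 0 := by rintro rfl; simp at he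
  have h1 := Eu_root hpos (rt_spec hq).1.1
  have h2 := Eu_add M hpos (rt cs q) (rt cs p)
  simp only [List.pairwise_append, List.pairwise_cons, List.mem_cons, or_imp, forall_and,
    forall_eq, hm, map_smul, map_sub, LinearMap.smul_apply, LinearMap.sub_apply, smul_eq_mul,
    mul_eq_zero, he0, false_or, h1]
  constructor
  · rintro ⟨a1, ⟨⟨a2, a3⟩, a4, a5⟩, a6, a7, a8⟩
    refine ⟨a1, ⟨⟨by linarith, a4⟩, fun t ht => ?_, a5⟩, a7, fun t ht => ?_, a8⟩
    · rw [a3 t ht, a4 t ht]; ring
    · rw [a6 t ht, a7 t ht]; ring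
  · rintro ⟨a1, ⟨⟨a2, a3⟩, a4, a5⟩, a6, a7, a8⟩
    refine ⟨a1, ⟨⟨by linarith, fun t ht => ?_⟩, a3, a5⟩, fun t ht => ?_, a6, a8⟩
    · have := a4 t ht
      rw [a3 t ht] at this
      linarith
    · have := a7 t ht
      rw [a6 t ht] at this
      linarith

lemma Eu_left {a : List W} (ha : ∀ t ∈ a, cs.IsReflection t) {y : B → ℝ}
    (h : ∀ t ∈ a, Eu M pos y (rt cs t) = 0) (v : B → ℝ) :
    Eu M pos y (geo cs a.prod v) = Eu M pos y v := by
  induction a with
  | nil => simp
  | cons t a ih =>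
    rw [List.prod_cons, geo_mul, (rt_spec (ha t List.mem_cons_self)).1.2, map_sub, map_smul,
      h t List.mem_cons_self, ih (fun u hu => ha u (List.mem_cons_of_mem _ hu))
        fun u hu => h u (List.mem_cons_of_mem _ hu)]
    simp

lemma Eu_right {a : List W} (ha : ∀ t ∈ a, cs.IsReflection t) {y : B → ℝ}
    (h : ∀ t ∈ a, Eu M pos (rt cs t) y = 0) (v : B → ℝ) :
    Eu M pos (geo cs a.prod v) y = Eu M pos v y := by
  induction a with
  | nil => simp
  | cons t a ih =>
    rw [List.prod_cons, geo_mul, (rt_spec (ha t List.mem_cons_self)).1.2, map_sub, map_smul,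
      LinearMap.sub_apply, LinearMap.smul_apply,
      h t List.mem_cons_self, ih (fun u hu => ha u (List.mem_cons_of_mem _ hu))
        fun u hu => h u (List.mem_cons_of_mem _ hu)]
    simp

lemma exc_self {a b : List W} {t : W} (h : Exc pos cs (a ++ t :: b)) (v : B → ℝ) :
    Eu M pos (rt cs t) (geo cs a.prod v) = Eu M pos (rt cs t) v :=
  Eu_left (fun u hu => h.1 u (List.mem_append_left _ hu))
    (fun u hu => (List.pairwise_append.1 h.2).2.2 u hu t List.mem_cons_self) v

lemma exc_dual (hpos : Function.Injective pos) {a b : List W} {t t' : W}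
    (h : Exc pos cs (a ++ t :: b)) (ht' : t' ∈ a ++ t :: b) :
    0 ≤ Eu M pos (rt cs t') (geo cs a.prod (rt cs t)) := by
  have ht : cs.IsReflection t := h.1 t (by simp)
  rcases List.mem_append.1 ht' with h1 | h1
  · obtain ⟨a₁, a₂, rfl⟩ := List.append_of_mem h1
    have h' : Exc pos cs (a₁ ++ t' :: (a₂ ++ t :: b)) := by simpa using h
    have hr : cs.IsReflection t' := h.1 t' ht'
    have hp := (List.pairwise_cons.1 (List.pairwise_append.1 h'.2).2.1).1
    rw [List.prod_append, List.prod_cons, geo_mul, exc_self h', geo_mul, (rt_spec hr).1.2, map_sub,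
      map_smul, Eu_root hpos (rt_spec hr).1.1, ← Eu_add M hpos,
      Eu_right (fun u hu => h.1 u (by simp [hu])) (fun u hu => hp u (by simp [hu])),
      hp t (by simp)]
    simp
  · rcases List.mem_cons.1 h1 with rfl | h1
    · rw [exc_self h, Eu_root hpos (rt_spec ht).1.1]; norm_num
    · rw [Eu_left (fun u hu => h.1 u (List.mem_append_left _ hu))
        (fun u hu => (List.pairwise_append.1 h.2).2.2 u hu t' (List.mem_cons_of_mem _ h1)),
        (List.pairwise_cons.1 (List.pairwise_append.1 h.2).2.1).1 t' h1]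

/-- height -/
noncomputable def hgt : (B → ℝ) →ₗ[ℝ] ℝ := ∑ j, LinearMap.proj j

lemma hgt_pos {ρ : B → ℝ} (h : IsRoot cs ρ) (h0 : 0 ≤ ρ) : 0 < hgt ρ := by
  have : hgt ρ = ∑ j, ρ j := by simp [hgt, LinearMap.sum_apply]
  rw [this]
  obtain ⟨j, hj⟩ := Function.ne_iff.1 h.ne_zero
  exact Finset.sum_pos' (fun k _ => h0 k) ⟨j, Finset.mem_univ _, lt_of_le_of_ne (h0 j) (Ne.symm hj)⟩

lemma hgt_ne {ρ : B → ℝ} (h : IsRoot cs ρ) : hgt ρ ≠ 0 := by
  rcases h.sign with h0 | h0
  · exact (hgt_pos h h0).ne'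
  · have := hgt_pos h.neg (neg_nonneg.2 h0)
    rw [map_neg] at this
    linarith

variable (cs)

/-- the lexicographic half space of two functionals -/
def lexH (θ η : (B → ℝ) →ₗ[ℝ] ℝ) (hη : ∀ ρ, IsRoot cs ρ → η ρ ≠ 0) : Half cs where
  s := {v | 0 < θ v ∨ (θ v = 0 ∧ 0 < η v)}
  add u hu v hv := by
    simp only [Set.mem_ofPred_eq, map_add] at *
    rcases hu with hu | hu <;> rcases hv with hv | hv
    · left; linarith
    · left; linarith [hv.1]
    · left; linarith [hu.1]
    · right; exact ⟨by linarith [hu.1, hv.1], by linarith [hu.2, hv.2]⟩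
  smul c hc v hv := by
    simp only [Set.mem_ofPred_eq, map_smul, smul_eq_mul] at *
    rcases hv with hv | hv
    · left; positivity
    · right; exact ⟨by rw [hv.1, mul_zero], mul_pos hc hv.2⟩
  root ρ hρ := by
    simp only [Set.mem_ofPred_eq, map_neg, neg_pos, neg_eq_zero, not_or, not_and, not_lt]
    constructor
    · rintro (h | h)
      · exact ⟨h.le, fun h' => absurd h' h.ne⟩
      · exact ⟨h.1.le, fun _ => h.2.le⟩
    · rintro ⟨h1, h2⟩
      rcases h1.eq_or_lt with h | h
      · exact Or.inr ⟨h, lt_of_le_of_ne (h2 h) (hη ρ hρ)⟩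
      · exact Or.inl h

/-- half space of a functional, ties broken in favour of positive roots -/
noncomputable def Pp (θ : (B → ℝ) →ₗ[ℝ] ℝ) : Half cs := lexH cs θ hgt fun _ h => hgt_ne h

/-- half space of a functional, ties broken in favour of negative roots -/
noncomputable def Pn (θ : (B → ℝ) →ₗ[ℝ] ℝ) : Half cs :=
  lexH cs θ (-hgt) fun _ h => by simpa using hgt_ne h

variable {cs}

lemma mem_Pp_of_pos {θ : (B → ℝ) →ₗ[ℝ] ℝ} {v : B → ℝ} (h : 0 < θ v) : v ∈ (Pp cs θ).s := Or.inl h

lemma mem_Pp_of_nonneg {θ : (B → ℝ) →ₗ[ℝ] ℝ} {ρ : B → ℝ} (hρ : IsRoot cs ρ) (h0 : 0 ≤ ρ)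
    (h : 0 ≤ θ ρ) : ρ ∈ (Pp cs θ).s := by
  rcases h.eq_or_lt with h | h
  · exact Or.inr ⟨h.symm, hgt_pos hρ h0⟩
  · exact Or.inl h

lemma mem_Pn_iff {θ : (B → ℝ) →ₗ[ℝ] ℝ} {ρ : B → ℝ} (hρ : IsRoot cs ρ) (h0 : 0 ≤ ρ) :
    ρ ∈ (Pn cs θ).s ↔ 0 < θ ρ := by
  refine ⟨fun h => h.resolve_right fun h' => ?_, fun h => Or.inl h⟩
  have := h'.2
  rw [LinearMap.neg_apply] at this
  linarith [hgt_pos hρ h0]

variable (cs)

/-- the functional is positive along the list -/
def Good (θ : (B → ℝ) →ₗ[ℝ] ℝ) (l : List W) : Prop :=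
  ∀ a t b, l = a ++ t :: b → 0 < θ (geo cs a.prod (rt cs t))

variable {cs}

lemma signs (hpos : Function.Injective pos) {a b : List W} {t : W}
    (h : Exc pos cs (a ++ t :: b))
    (hF : ∀ P : Half cs, FF P (a ++ t :: b).prod ≤ (a ++ t :: b).length)
    {θ : (B → ℝ) →ₗ[ℝ] ℝ} (hθ : Good cs θ (a ++ t :: b)) {ρ : B → ℝ} (hρ : ρ ∈ Inv cs t) :
    geo cs a.prod ρ ∈ (Pp cs θ).s ↔ 0 < Eu M pos (rt cs t) ρ := by
  have ht : cs.IsReflection t := h.1 t (by simp)
  have h1 := Eu_root hpos (rt_spec ht).1.1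
  have pairP : ∀ θ' : (B → ℝ) →ₗ[ℝ] ℝ, Good cs θ' (a ++ t :: b) → ∀ γ ∈ Inv cs t, γ ≠ rt cs t →
      geo cs a.prod γ ∈ (Pp cs θ').s → geo cs a.prod (-geo cs t γ) ∈ (Pp cs θ').s → False := by
    intro θ' hθ' γ hγ hne e1 e2
    have hal : Along cs (Pp cs θ') (a ++ t :: b) := fun a' t' b' e => mem_Pp_of_pos (hθ' a' t' b' e)
    exact (FF_refl ht _ hal.right.head).2 (FF_step h.1 hal (hF _)) γ hγ hne e1 e2
  have key : ∀ γ ∈ Inv cs t, γ ≠ rt cs t → 0 < Eu M pos (rt cs t) γ →
      geo cs a.prod γ ∈ (Pp cs θ).s := by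
    intro γ hγ hne he
    by_contra hc
    have hu : θ (geo cs a.prod γ) ≤ 0 := not_lt.1 fun h' => hc (mem_Pp_of_pos h')
    have hy := hθ a t b rfl
    have hk := pair_pos ht hγ
    set u := θ (geo cs a.prod γ) with hu'
    set y := θ (geo cs a.prod (rt cs t)) with hy'
    set k := bf M (rt cs t) γ with hk'
    set e := Eu M pos (rt cs t) γ with he'
    have hky : 0 < k * y := mul_pos hk hy
    have hs : 0 ≤ (k * y / 2 - u) / e := div_nonneg (by linarith) he.le
    have hg : Good cs (θ + ((k * y / 2 - u) / e) • Eu M pos (rt cs t)) (a ++ t :: b) := by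
      intro a' t' b' e'
      rw [LinearMap.add_apply, LinearMap.smul_apply, smul_eq_mul]
      have := exc_dual hpos (t' := t) (e' ▸ h) (e' ▸ by simp)
      have := hθ a' t' b' e'
      positivity
    have e3 : -geo cs t γ = k • rt cs t - γ := by rw [← pair_sum ht]; abel
    have e4 : (k * y / 2 - u) / e * e = k * y / 2 - u := div_mul_cancel₀ _ he.ne'
    refine pairP _ hg γ hγ hne (mem_Pp_of_pos ?_) (mem_Pp_of_pos ?_)
    · rw [LinearMap.add_apply, LinearMap.smul_apply, smul_eq_mul, exc_self h, ← hu', ← he', e4]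
      linarith
    · rw [LinearMap.add_apply, LinearMap.smul_apply, smul_eq_mul, exc_self h, e3]
      simp only [map_sub, map_smul, smul_eq_mul]
      rw [← hu', ← hy', ← he', h1, mul_sub, e4]
      have := mul_nonneg hs hk.le
      linarith
  by_cases hne : ρ = rt cs t
  · rw [hne, h1]
    exact iff_of_true (mem_Pp_of_pos (hθ a t b rfl)) one_pos
  refine ⟨fun hm => ?_, key ρ hρ hne⟩
  by_contra hc
  have hne' : -geo cs t ρ ≠ rt cs t := by
    intro e
    apply hne
    rw [← geo_geo ht ρ, ← neg_neg (geo cs t ρ), e, map_neg, (rt_spec ht).1.self, neg_neg]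
  refine pairP θ hθ ρ hρ hne hm (key _ (pair_mem ht hρ) hne' ?_)
  have e3 : -geo cs t ρ = bf M (rt cs t) ρ • rt cs t - ρ := by rw [← pair_sum ht]; abel
  rw [e3, map_sub, map_smul, h1, smul_eq_mul]
  linarith [pair_pos ht hρ, not_lt.1 hc]

variable {G : Type*} [Group G] (g : B → G)
variable (hb : ∀ i j, alt (g i) (g j) (M i j) = alt (g j) (g i) (M i j))
variable (cs pos)

/-- the lift of a reflection -/
noncomputable def aa (t : W) : G := LL g hb (Pn cs (Eu M pos (rt cs t))) t

variable {cs pos}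

lemma aa_simple (hpos : Function.Injective pos) (i : B) : aa pos cs g hb (cs.simple i) = g i := by
  rw [aa, LL_simple, rt_simple, Half.eps_pos, zpow_one]
  rw [mem_Pn_iff (isRoot_ee i) (ee_nonneg i), Eu_root hpos (isRoot_ee (cs := cs) i)]
  exact one_pos

lemma LL_prod (f : W → G) (l : List W) (P : Half cs)
    (h : ∀ a t b, l = a ++ t :: b → LL g hb (P.act a.prod) t = f t) :
    LL g hb P l.prod = (l.map f).prod := by
  induction l generalizing P with
  | nil => simp [LL_one]
  | cons t l ih =>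
    rw [List.prod_cons, LL_mul, List.map_cons, List.prod_cons, ← h [] t l rfl, ih]
    · simp
    · rintro a u b rfl
      rw [← Half.act_mul, ← List.prod_cons]
      exact h (t :: a) u b rfl

lemma Lw_all (ω : List B) (P : Half cs)
    (h : ∀ a i b, ω = a ++ i :: b → geo cs (cs.wordProd a) (ee i) ∈ P.s) :
    Lw g P ω = (ω.map g).prod := by
  induction ω generalizing P with
  | nil => simp [Lw]
  | cons i ω ih =>
    rw [Lw, List.map_cons, List.prod_cons, P.eps_pos (by simpa using h [] i ω rfl), zpow_one, ih]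
    rintro a j b rfl
    rw [Half.mem_act, ← geo_mul, ← cs.wordProd_cons]
    exact h (i :: a) j b rfl

lemma exc_word {ω : List B} (hω : ω.Pairwise fun i j => pos i < pos j) :
    Exc pos cs (ω.map cs.simple) := by
  refine ⟨fun t ht => ?_, ?_⟩
  · obtain ⟨i, _, rfl⟩ := List.mem_map.1 ht
    exact cs.isReflection_simple i
  · rw [List.pairwise_map]
    refine hω.imp fun {i j} hij => ?_
    have hne : j ≠ i := fun e => by simp [e] at hij
    rw [rt_simple, rt_simple, Eu_ee_ee, if_neg hij.not_gt, if_neg hne]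

lemma nodup_of_pos {ω : List B} (hω : ω.Pairwise fun i j => pos i < pos j) : ω.Nodup :=
  hω.imp fun {i j} hij e => by simp [e] at hij

/-- the product of the lifts along any minimal factorisation of the Coxeter element -/
theorem prod_aa (hpos : Function.Injective pos) {ω : List B}
    (hω : ω.Pairwise fun i j => pos i < pos j) (hall : ∀ i, i ∈ ω) {l : List W} (hl : MinF cs l)
    (hp : l.prod = cs.wordProd ω) : (l.map (aa pos cs g hb)).prod = (ω.map g).prod := by
  have hhe := hurwitz _ ω l rfl (nodup_of_pos hω) hl hp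
  have hex0 : Exc pos cs (ω.map cs.simple) := exc_word hω
  have hex : Exc pos cs l := (exc_he hpos hhe).2 hex0
  have hF : ∀ P : Half cs, FF P l.prod ≤ l.length := by
    intro P
    rw [hp, hhe.length, List.length_map]
    exact FF_word_le P ω
  set y := (l.map (rt cs)).sum with hy
  have hy0 : 0 ≤ y := List.sum_nonneg fun v hv => by
    obtain ⟨t, ht, rfl⟩ := List.mem_map.1 hv
    exact (rt_spec (hl.1 t ht)).2
  have hsum : ∀ v, Eu M pos y v = (l.map fun t => Eu M pos (rt cs t) v).sum := by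
    intro v
    rw [hy, map_list_sum, List.map_map]
    clear hy hy0 hF hex hhe hp hl y
    induction l with
    | nil => simp
    | cons t l ih => simp only [List.map_cons, List.sum_cons, LinearMap.add_apply, ih]; rfl
  have hgood : Good cs (Eu M pos y) l := by
    rintro a t b rfl
    rw [hsum]
    have h1 := List.single_le_sum
      (l := (a ++ t :: b).map fun t' => Eu M pos (rt cs t') (geo cs a.prod (rt cs t)))
      (fun x hx => by
        obtain ⟨t', ht', rfl⟩ := List.mem_map.1 hx
        exact exc_dual hpos hex ht') _ (List.mem_map_of_mem (a := t) (by simp))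
    rw [exc_self hex, Eu_root hpos (rt_spec (hex.1 t (by simp))).1.1] at h1
    linarith
  rw [← LL_prod g hb (aa pos cs g hb) l (Pp cs (Eu M pos y)), hp, LL_word]
  · apply Lw_all
    rintro a i b rfl
    have hi : i ∉ a := fun hc =>
      (List.nodup_append.1 (nodup_of_pos hω)).2.2 i hc i List.mem_cons_self rfl
    refine mem_Pp_of_nonneg ((isRoot_ee i).geo _) (geo_word_nonneg a hi) ?_
    have e : y = ∑ j, y j • ee j := by
      funext k
      simp [ee, Finset.sum_apply, Pi.single_apply]
    rw [e, map_sum, LinearMap.sum_apply]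
    refine Finset.sum_nonneg fun j _ => ?_
    rw [map_smul, LinearMap.smul_apply, smul_eq_mul]
    refine mul_nonneg (hy0 j) ?_
    rw [List.map_append, List.map_cons] at hex0
    have := exc_dual hpos (t' := cs.simple j) hex0 (by
      rw [← List.map_cons, ← List.map_append]; exact List.mem_map_of_mem (hall j))
    rwa [rt_simple, rt_simple] at this
  · rintro a t b rfl
    refine LL_congr g hb t _ _ fun ρ hρ => ?_
    rw [Half.mem_act, signs hpos hex hF hgood hρ, mem_Pn_iff hρ.1 hρ.2.1]

end Pool.Agent.H609Z.DA
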