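import Pool.Agent.H609Z.DA.Cocycle

set_option autoImplicit false
set_option linter.unusedSectionVars false

namespace Pool.Agent.H609Z.DA

open Pool.Agent.Helper741 CoxeterSystem

variable {B : Type*} {M : CoxeterMatrix B} [Fintype B] [DecidableEq B]
variable {W : Type*} [Group W] {cs : CoxeterSystem M W}

/-- the twisted length -/
noncomputable def FF (P : Half cs) (w : W) : ℤ := ∑ᶠ ρ ∈ Inv cs w, P.eps ρ

lemma FF_one (P : Half cs) : FF P 1 = 0 := by
  rw [FF, Inv_one, finsum_mem_empty]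

lemma FF_aux (P : Half cs) {i : B} {w : W} (h : ee i ∉ Inv cs w) :
    FF P (cs.simple i * w) = P.eps (ee i) + FF (P.act (cs.simple i)) w := by
  rw [FF, inv_simple_mul h, finsum_mem_insert _ ee_not_mem_image ((inv_finite w).image _),
    finsum_mem_image (Function.LeftInverse.injective (sg_sg M i)).injOn, FF]
  simp only [Half.eps_act, geo_simple]

lemma FF_simple_mul (P : Half cs) (i : B) (w : W) :
    FF P (cs.simple i * w) = P.eps (ee i) + FF (P.act (cs.simple i)) w := by
  by_cases h : ee i ∈ Inv cs w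
  · have h1 : ee i ∉ Inv cs (cs.simple i * w) := fun h' => (ee_mem_inv_iff i w).1 h' h
    have h2 := FF_aux (P.act (cs.simple i)) h1
    rw [cs.simple_mul_simple_cancel_left, ← Half.act_mul, cs.simple_mul_simple_self, Half.act_one,
      Half.eps_simple] at h2
    rw [h2]; ring
  · exact FF_aux P h

lemma FF_mul (P : Half cs) (w w' : W) : FF P (w * w') = FF P w + FF (P.act w) w' := by
  induction w using cs.simple_induction_left generalizing P with
  | one => simp [FF_one]
  | mul_simple_left w i ih =>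
    rw [mul_assoc, FF_simple_mul, FF_simple_mul, ih, Half.act_mul, add_assoc]

lemma FF_simple (P : Half cs) (i : B) : FF P (cs.simple i) = P.eps (ee i) := by
  have := FF_simple_mul P i 1
  rwa [mul_one, FF_one, add_zero] at this

lemma FF_word_le (P : Half cs) (ω : List B) : FF P (cs.wordProd ω) ≤ ω.length := by
  induction ω generalizing P with
  | nil => simp [FF_one]
  | cons i ω ih =>
    rw [cs.wordProd_cons, FF_simple_mul, List.length_cons]
    have h1 := ih (P.act (cs.simple i))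
    have h2 : P.eps (ee i) ≤ 1 := by unfold Half.eps; split_ifs <;> norm_num
    push_cast
    linarith

section refl
variable {t : W} (ht : cs.IsReflection t)
include ht

lemma rt_mem_inv : rt cs t ∈ Inv cs t := by
  refine ⟨(rt_spec ht).1.1, (rt_spec ht).2, ?_⟩
  rw [ht.inv, (rt_spec ht).1.self]
  exact neg_nonpos.2 (rt_spec ht).2

lemma geo_geo (v : B → ℝ) : geo cs t (geo cs t v) = v := by
  rw [← geo_mul, ht.mul_self, geo_one]

lemma pair_mem {ρ : B → ℝ} (h : ρ ∈ Inv cs t) : -geo cs t ρ ∈ Inv cs t := by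
  refine ⟨(h.1.geo t).neg, ?_, ?_⟩
  · have := h.2.2
    rw [ht.inv] at this
    exact neg_nonneg.2 this
  · rw [ht.inv, map_neg, geo_geo ht]
    exact neg_nonpos.2 h.2.1

lemma pair_sum (ρ : B → ℝ) : ρ + -geo cs t ρ = bf M (rt cs t) ρ • rt cs t := by
  rw [(rt_spec ht).1.2]; module

lemma pair_pos {ρ : B → ℝ} (h : ρ ∈ Inv cs t) : 0 < bf M (rt cs t) ρ := by
  by_contra hc
  have h1 : bf M (rt cs t) ρ • rt cs t ≤ 0 :=
    smul_nonpos_of_nonpos_of_nonneg (not_lt.1 hc) (rt_spec ht).2
  rw [← pair_sum ht] at h1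
  have h2 := (pair_mem ht h).2.1
  exact h.1.not_both h.2.1 ((le_add_of_nonneg_right h2).trans h1)

lemma pair_eps (P : Half cs) (hβ : rt cs t ∈ P.s) {ρ : B → ℝ} (h : ρ ∈ Inv cs t) :
    ρ ∈ P.s ∨ -geo cs t ρ ∈ P.s := by
  by_contra hc
  push Not at hc
  have h1 := (P.root _ h.1).2 hc.1
  have h2 := (P.root _ (pair_mem ht h).1).2 hc.2
  have h3 := P.smul _ (inv_pos.2 (pair_pos ht h)) _ (P.add _ h1 _ h2)
  rw [← neg_add, pair_sum ht, smul_neg, smul_smul, inv_mul_cancel₀ (pair_pos ht h).ne',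
    one_smul] at h3
  exact (P.root _ (rt_spec ht).1.1).1 h3 hβ

lemma FF_refl (P : Half cs) (hβ : rt cs t ∈ P.s) : 1 ≤ FF P t ∧
    (FF P t ≤ 1 → ∀ ρ ∈ Inv cs t, ρ ≠ rt cs t → ρ ∈ P.s → -geo cs t ρ ∈ P.s → False) := by
  classical
  set S := (inv_finite (cs := cs) t).toFinset with hS
  have hmem : ∀ ρ, ρ ∈ S ↔ ρ ∈ Inv cs t := fun ρ => Set.Finite.mem_toFinset _
  have h1 : FF P t = ∑ ρ ∈ S, P.eps ρ := finsum_mem_eq_finite_toFinset_sum _ _
  have h2 : ∑ ρ ∈ S, P.eps ρ = ∑ ρ ∈ S, P.eps (-geo cs t ρ) := by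
    refine Finset.sum_nbij' (fun ρ => -geo cs t ρ) (fun ρ => -geo cs t ρ) ?_ ?_ ?_ ?_ ?_
    · exact fun ρ h => (hmem _).2 (pair_mem ht ((hmem _).1 h))
    · exact fun ρ h => (hmem _).2 (pair_mem ht ((hmem _).1 h))
    · intro ρ _; simp [geo_geo ht]
    · intro ρ _; simp [geo_geo ht]
    · intro ρ _; simp [geo_geo ht]
  let g : (B → ℝ) → ℤ := fun ρ => P.eps ρ + P.eps (-geo cs t ρ)
  have h3 : 2 * FF P t = ∑ ρ ∈ S, g ρ := by
    rw [Finset.sum_add_distrib, ← h2, h1]; ring
  have hg : ∀ ρ ∈ S, 0 ≤ g ρ := by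
    intro ρ hρ
    have e1 : -1 ≤ P.eps ρ := by unfold Half.eps; split_ifs <;> norm_num
    have e2 : -1 ≤ P.eps (-geo cs t ρ) := by unfold Half.eps; split_ifs <;> norm_num
    rcases pair_eps ht P hβ ((hmem _).1 hρ) with h | h
    · simp only [g, P.eps_pos h]; linarith
    · simp only [g, P.eps_pos h]; linarith
  have hb : rt cs t ∈ S := (hmem _).2 (rt_mem_inv ht)
  have hgb : g (rt cs t) = 2 := by
    simp only [g, (rt_spec ht).1.self, neg_neg, P.eps_pos hβ]; norm_num
  constructor
  · have := Finset.single_le_sum hg hb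
    linarith
  · intro hle ρ hρ hne hp1 hp2
    have hgρ : g ρ = 2 := by simp only [g, P.eps_pos hp1, P.eps_pos hp2]; norm_num
    have hsub : ({ρ, rt cs t} : Finset (B → ℝ)) ⊆ S := by
      intro γ hγ
      rcases Finset.mem_insert.1 hγ with rfl | hγ
      · exact (hmem _).2 hρ
      · rw [Finset.mem_singleton.1 hγ]; exact hb
    have := Finset.sum_le_sum_of_subset_of_nonneg hsub fun γ hγ _ => hg γ hγ
    rw [Finset.sum_pair hne] at this
    linarith

end refl

variable (cs)

/-- `P` is positive along the list of reflections -/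
def Along (P : Half cs) (l : List W) : Prop :=
  ∀ l₁ t l₂, l = l₁ ++ t :: l₂ → geo cs l₁.prod (rt cs t) ∈ P.s

variable {cs}

lemma Along.head {P : Half cs} {t : W} {l : List W} (h : Along cs P (t :: l)) : rt cs t ∈ P.s := by
  simpa using h [] t l rfl

lemma Along.tail {P : Half cs} {t : W} {l : List W} (h : Along cs P (t :: l)) :
    Along cs (P.act t) l := by
  rintro l₁ u l₂ rfl
  have := h (t :: l₁) u l₂ rfl
  rwa [List.prod_cons, geo_mul] at this

lemma Along.right {P : Half cs} {l l' : List W} (h : Along cs P (l ++ l')) :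
    Along cs (P.act l.prod) l' := by
  rintro l₁ u l₂ rfl
  have := h (l ++ l₁) u l₂ (by simp)
  rwa [List.prod_append, geo_mul] at this

lemma Along.left {P : Half cs} {l l' : List W} (h : Along cs P (l ++ l')) : Along cs P l := by
  rintro l₁ u l₂ rfl
  exact h l₁ u (l₂ ++ l') (by simp)

lemma FF_ge {l : List W} (hl : ∀ t ∈ l, cs.IsReflection t) {P : Half cs} (h : Along cs P l) :
    (l.length : ℤ) ≤ FF P l.prod := by
  induction l generalizing P with
  | nil => simp [FF_one]
  | cons t l ih =>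
    rw [List.prod_cons, FF_mul, List.length_cons]
    have h1 := (FF_refl (hl t List.mem_cons_self) P h.head).1
    have h2 := ih (fun u hu => hl u (List.mem_cons_of_mem _ hu)) h.tail
    push_cast
    linarith

lemma FF_step {l₁ l₂ : List W} {t : W} (hl : ∀ u ∈ l₁ ++ t :: l₂, cs.IsReflection u) {P : Half cs}
    (h : Along cs P (l₁ ++ t :: l₂)) (hF : FF P (l₁ ++ t :: l₂).prod ≤ (l₁ ++ t :: l₂).length) :
    FF (P.act l₁.prod) t ≤ 1 := by
  have h1 := FF_ge (fun u hu => hl u (List.mem_append_left _ hu)) h.left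
  have h2 := FF_ge (fun u hu => hl u (List.mem_append_right _ (List.mem_cons_of_mem _ hu)))
    h.right.tail
  rw [List.prod_append, List.prod_cons, FF_mul, FF_mul, List.length_append, List.length_cons] at hF
  push_cast at hF
  linarith

end Pool.Agent.H609Z.DA
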