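import Pool.Agent.Helper741.Tits

set_option autoImplicit false
set_option linter.unusedSectionVars false

namespace Pool.Agent.H609Z.DA

open Pool.Agent.Helper741 CoxeterSystem

variable {B : Type*} (M : CoxeterMatrix B) [Fintype B] [DecidableEq B]

/-- the invariant symmetric form, normalised so that roots have norm `2` -/
noncomputable def bf : LinearMap.BilinForm ℝ (B → ℝ) :=
  Matrix.toBilin' (Matrix.of fun i j => -2 * cc M i j)

lemma bf_ee_ee (i j : B) : bf M (ee i) (ee j) = -2 * cc M i j := by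
  simp [bf, ee, Matrix.toBilin'_single]

lemma lin_ext {N : Type*} [AddCommGroup N] [Module ℝ N] {f g : (B → ℝ) →ₗ[ℝ] N}
    (h : ∀ i, f (ee i) = g (ee i)) : f = g :=
  (Pi.basisFun ℝ B).ext fun i => by simpa [ee] using h i

lemma bf_ee (i : B) (v : B → ℝ) : bf M (ee i) v = coroot M i v := by
  have : bf M (ee i) = coroot M i := lin_ext fun j => by rw [bf_ee_ee, coroot_ee]
  rw [this]

lemma bf_symm (u v : B → ℝ) : bf M u v = bf M v u := by
  have : bf M = (bf M).flip := lin_ext fun i => lin_ext fun j => by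
    rw [LinearMap.BilinForm.flip_apply, bf_ee_ee, bf_ee_ee, cc_symm]
  conv_lhs => rw [this]
  rfl

lemma sg_bf (i : B) (v : B → ℝ) : sg M i v = v - bf M (ee i) v • ee i := by
  rw [sg_apply, bf_ee]

lemma bf_sg (i : B) (u v : B → ℝ) : bf M (sg M i u) (sg M i v) = bf M u v := by
  have h : bf M (ee i) (ee i) = 2 := by rw [bf_ee_ee, cc_self]; norm_num
  rw [sg_bf, sg_bf]
  simp only [map_sub, map_smul, LinearMap.sub_apply, LinearMap.smul_apply, smul_eq_mul, h]
  rw [bf_symm M u (ee i)]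
  ring

variable {M}
variable {W : Type*} [Group W] (cs : CoxeterSystem M W)

lemma geo_mul (w w' : W) (v : B → ℝ) : geo cs (w * w') v = geo cs w (geo cs w' v) := by
  rw [map_mul, Module.End.mul_apply]

@[simp] lemma geo_one (v : B → ℝ) : geo cs 1 v = v := by
  rw [map_one, Module.End.one_apply]

lemma bf_geo (w : W) (u v : B → ℝ) : bf M (geo cs w u) (geo cs w v) = bf M u v := by
  induction w using cs.simple_induction_left generalizing u v with
  | one => simp
  | mul_simple_left w i ih => rw [geo_mul, geo_mul, geo_simple, bf_sg, ih]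

/-- roots -/
def IsRoot (ρ : B → ℝ) : Prop := ∃ w i, ρ = geo cs w (ee i)

variable {cs}

lemma isRoot_ee (i : B) : IsRoot cs (ee i) := ⟨1, i, by simp⟩

lemma IsRoot.geo {ρ : B → ℝ} (h : IsRoot cs ρ) (w : W) : IsRoot cs (geo cs w ρ) := by
  obtain ⟨w', i, rfl⟩ := h
  exact ⟨w * w', i, by rw [geo_mul]⟩

lemma IsRoot.neg {ρ : B → ℝ} (h : IsRoot cs ρ) : IsRoot cs (-ρ) := by
  obtain ⟨w, i, rfl⟩ := h
  exact ⟨w * cs.simple i, i, by rw [geo_mul, geo_simple, sg_ee_self, map_neg]⟩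

lemma IsRoot.ne_zero {ρ : B → ℝ} (h : IsRoot cs ρ) : ρ ≠ 0 := by
  obtain ⟨w, i, rfl⟩ := h
  exact geo_ee_ne_zero cs w i

lemma IsRoot.norm {ρ : B → ℝ} (h : IsRoot cs ρ) : bf M ρ ρ = 2 := by
  obtain ⟨w, i, rfl⟩ := h
  rw [bf_geo, bf_ee_ee, cc_self]; norm_num

lemma IsRoot.sign {ρ : B → ℝ} (h : IsRoot cs ρ) : 0 ≤ ρ ∨ ρ ≤ 0 := by
  obtain ⟨w, i, rfl⟩ := h
  rcases cs.length_mul_simple w i with h1 | h1
  · exact Or.inl (geo_nonneg cs w i (by omega))
  · exact Or.inr (geo_nonpos cs w i (by omega))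

lemma IsRoot.not_both {ρ : B → ℝ} (h : IsRoot cs ρ) (h1 : 0 ≤ ρ) (h2 : ρ ≤ 0) : False :=
  h.ne_zero (le_antisymm h2 h1)

lemma IsRoot.eq_of_smul {β γ : B → ℝ} (hβ : IsRoot cs β) (hγ : IsRoot cs γ) (h1 : 0 ≤ β)
    (h2 : 0 ≤ γ) {c : ℝ} (h : β = c • γ) : β = γ := by
  have h3 := hβ.norm
  rw [h] at h3
  simp only [map_smul, LinearMap.smul_apply, smul_eq_mul, hγ.norm] at h3
  have h4 : (c - 1) * (c + 1) = 0 := by linarith
  rcases mul_eq_zero.1 h4 with h5 | h5
  · rw [h, show c = 1 by linarith, one_smul]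
  · exfalso
    rw [show c = -1 by linarith, neg_smul, one_smul] at h
    rw [h] at h1
    exact hγ.not_both h2 (neg_nonneg.1 h1)

lemma IsRoot.eq_ee {ρ : B → ℝ} (h : IsRoot cs ρ) {i : B} (h1 : 0 ≤ ρ) (h2 : sg M i ρ ≤ 0) :
    ρ = ee i := by
  refine h.eq_of_smul (isRoot_ee i) h1 (ee_nonneg i) (c := ρ i) ?_
  funext j
  by_cases hj : j = i
  · subst hj; simp [ee]
  · have h3 := h2 j
    rw [sg_apply] at h3
    simp only [Pi.sub_apply, Pi.smul_apply, ee, Pi.single_apply, hj, if_false, smul_eq_mul,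
      mul_zero, sub_zero, Pi.zero_apply] at h3 ⊢
    exact le_antisymm h3 (h1 j)

variable (cs)

/-- `t` is the reflection in the root `β` -/
def Rf (t : W) (β : B → ℝ) : Prop := IsRoot cs β ∧ ∀ v, geo cs t v = v - bf M β v • β

variable {cs}

lemma rf_simple (i : B) : Rf cs (cs.simple i) (ee i) :=
  ⟨isRoot_ee i, fun v => by rw [geo_simple, sg_bf]⟩

lemma Rf.neg {t : W} {β : B → ℝ} (h : Rf cs t β) : Rf cs t (-β) :=
  ⟨h.1.neg, fun v => by rw [h.2]; simp⟩

lemma Rf.conj {t : W} {β : B → ℝ} (h : Rf cs t β) (w : W) :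
    Rf cs (w * t * w⁻¹) (geo cs w β) :=
  ⟨h.1.geo w, fun v => by
    rw [geo_mul, geo_mul, h.2, map_sub, map_smul, geo_apply_inv, ← bf_geo cs w β, geo_apply_inv]⟩

lemma Rf.unique {t t' : W} {β : B → ℝ} (h : Rf cs t β) (h' : Rf cs t' β) : t = t' :=
  geo_injective cs (LinearMap.ext fun v => by rw [h.2, h'.2])

lemma Rf.self {t : W} {β : B → ℝ} (h : Rf cs t β) : geo cs t β = -β := by
  rw [h.2, h.1.norm]; module

lemma Rf.root_unique {t : W} {β γ : B → ℝ} (h : Rf cs t β) (h' : Rf cs t γ) (h1 : 0 ≤ β)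
    (h2 : 0 ≤ γ) : β = γ := by
  refine h.1.eq_of_smul h'.1 h1 h2 (c := bf M γ β / 2) ?_
  have h3 := h'.2 β
  rw [h.self] at h3
  have : (2 : ℝ) • β = bf M γ β • γ := by
    calc (2 : ℝ) • β = β - -β := by module
      _ = _ := by rw [h3]; module
  calc β = (1 / 2 : ℝ) • ((2 : ℝ) • β) := by module
    _ = _ := by rw [this]; module

lemma exists_rf {t : W} (ht : cs.IsReflection t) : ∃ β, Rf cs t β ∧ 0 ≤ β := by
  obtain ⟨w, i, rfl⟩ := ht
  have h := (rf_simple (cs := cs) i).conj w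
  rcases h.1.sign with h1 | h1
  · exact ⟨_, h, h1⟩
  · exact ⟨_, h.neg, neg_nonneg.2 h1⟩

variable (cs)

open Classical in
/-- the positive root of a reflection -/
noncomputable def rt (t : W) : B → ℝ :=
  if h : ∃ β, Rf cs t β ∧ 0 ≤ β then h.choose else 0

variable {cs}

lemma rt_spec {t : W} (ht : cs.IsReflection t) : Rf cs t (rt cs t) ∧ 0 ≤ rt cs t := by
  unfold rt
  rw [dif_pos (exists_rf ht)]
  exact (exists_rf ht).choose_spec

lemma rt_simple (i : B) : rt cs (cs.simple i) = ee i :=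
  (rt_spec (cs.isReflection_simple i)).1.root_unique (rf_simple i)
    (rt_spec (cs.isReflection_simple i)).2 (ee_nonneg i)

lemma rt_conj {t : W} (ht : cs.IsReflection t) (w : W) :
    rt cs (w * t * w⁻¹) = geo cs w (rt cs t) ∨ rt cs (w * t * w⁻¹) = -geo cs w (rt cs t) := by
  have h := (rt_spec ht).1.conj w
  have h' := rt_spec (ht.conj w)
  rcases h.1.sign with h1 | h1
  · exact Or.inl (h'.1.root_unique h h'.2 h1)
  · exact Or.inr (h'.1.root_unique h.neg h'.2 (neg_nonneg.2 h1))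

/-- strong exchange -/
lemma strong_exchange {t : W} {β : B → ℝ} (h : Rf cs t β) (h0 : 0 ≤ β) (ω : List B)
    (hω : geo cs (cs.wordProd ω) β ≤ 0) :
    ∃ ω₁ i ω₂, ω = ω₁ ++ i :: ω₂ ∧ cs.wordProd ω₂ * t = cs.simple i * cs.wordProd ω₂ := by
  induction ω with
  | nil =>
    rw [cs.wordProd_nil, geo_one] at hω
    exact (h.1.not_both h0 hω).elim
  | cons i ω ih =>
    rcases (h.1.geo (cs.wordProd ω)).sign with h1 | h1
    · rw [cs.wordProd_cons, geo_mul, geo_simple] at hω
      have h2 := (h.1.geo (cs.wordProd ω)).eq_ee h1 hω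
      have h3 := h.conj (cs.wordProd ω)
      rw [h2] at h3
      refine ⟨[], i, ω, rfl, ?_⟩
      rw [← h3.unique (rf_simple i)]
      group
    · obtain ⟨ω₁, j, ω₂, rfl, h2⟩ := ih h1
      exact ⟨i :: ω₁, j, ω₂, rfl, h2⟩

lemma exchange_prod {t : W} {ω₁ ω₂ : List B} {i : B}
    (h : cs.wordProd ω₂ * t = cs.simple i * cs.wordProd ω₂) :
    cs.wordProd (ω₁ ++ i :: ω₂) * t = cs.wordProd (ω₁ ++ ω₂) := by
  rw [cs.wordProd_append, cs.wordProd_cons, cs.wordProd_append, mul_assoc, mul_assoc, h,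
    cs.simple_mul_simple_cancel_left]

lemma len_lt {t : W} (ht : cs.IsReflection t) {x : W} (hx : geo cs x (rt cs t) ≤ 0) :
    cs.length (x * t) < cs.length x := by
  obtain ⟨ω, hred, rfl⟩ := cs.exists_isReduced x
  obtain ⟨ω₁, i, ω₂, rfl, h⟩ := strong_exchange (rt_spec ht).1 (rt_spec ht).2 ω hx
  rw [exchange_prod h, hred]
  refine (cs.length_wordProd_le _).trans_lt ?_
  simp

lemma len_gt {t : W} (ht : cs.IsReflection t) {x : W} (hx : 0 ≤ geo cs x (rt cs t)) :
    cs.length x < cs.length (x * t) := by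
  have h : geo cs (x * t) (rt cs t) ≤ 0 := by
    rw [geo_mul, (rt_spec ht).1.self, map_neg]
    exact neg_nonpos.2 hx
  have := len_lt ht h
  rwa [mul_assoc, ht.mul_self, mul_one] at this

lemma nonpos_of_len {t : W} (ht : cs.IsReflection t) {x : W}
    (hx : cs.length (x * t) ≤ cs.length x) : geo cs x (rt cs t) ≤ 0 := by
  rcases ((rt_spec ht).1.1.geo x).sign with h | h
  · exact absurd (len_gt ht h) (by omega)
  · exact h

lemma nonneg_of_len {t : W} (ht : cs.IsReflection t) {x : W}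
    (hx : cs.length x ≤ cs.length (x * t)) : 0 ≤ geo cs x (rt cs t) := by
  rcases ((rt_spec ht).1.1.geo x).sign with h | h
  · exact h
  · exact absurd (len_lt ht h) (by omega)

variable (cs)

/-- inversion set -/
def Inv (w : W) : Set (B → ℝ) := {ρ | IsRoot cs ρ ∧ 0 ≤ ρ ∧ geo cs w⁻¹ ρ ≤ 0}

variable {cs}

lemma Inv_one : Inv cs 1 = ∅ := by
  ext ρ
  simp only [Inv, inv_one, geo_one, Set.mem_ofPred_eq, Set.mem_empty_iff_false, iff_false]
  exact fun h => h.1.not_both h.2.1 h.2.2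

lemma geo_inv_simple_mul (i : B) (w : W) (v : B → ℝ) :
    geo cs (cs.simple i * w)⁻¹ v = geo cs w⁻¹ (sg M i v) := by
  rw [mul_inv_rev, geo_mul, cs.inv_simple, geo_simple]

lemma sg_root {ρ : B → ℝ} (h : IsRoot cs ρ) (i : B) : IsRoot cs (sg M i ρ) := by
  have := h.geo (cs.simple i)
  rwa [geo_simple] at this

lemma sg_mem_inv {i : B} {w : W} {ρ : B → ℝ} (h : ρ ∈ Inv cs w) (hne : ρ ≠ ee i) :
    sg M i ρ ∈ Inv cs (cs.simple i * w) := by
  refine ⟨sg_root h.1 i, ?_, by rw [geo_inv_simple_mul, sg_sg]; exact h.2.2⟩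
  rcases (sg_root h.1 i).sign with h1 | h1
  · exact h1
  · exact absurd (h.1.eq_ee h.2.1 h1) hne

lemma ee_mem_inv_iff (i : B) (w : W) : ee i ∈ Inv cs (cs.simple i * w) ↔ ee i ∉ Inv cs w := by
  have hr := (isRoot_ee (cs := cs) i).geo w⁻¹
  simp only [Inv, Set.mem_ofPred_eq, geo_inv_simple_mul, sg_ee_self, map_neg, neg_nonpos,
    isRoot_ee, ee_nonneg, true_and]
  constructor
  · exact fun h h' => hr.not_both h h'
  · exact fun h => hr.sign.resolve_right h

lemma inv_simple_mul {i : B} {w : W} (h : ee i ∉ Inv cs w) :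
    Inv cs (cs.simple i * w) = insert (ee i) (sg M i '' Inv cs w) := by
  ext ρ
  constructor
  · intro hρ
    by_cases hne : ρ = ee i
    · exact Or.inl hne
    · have := sg_mem_inv hρ hne
      rw [cs.simple_mul_simple_cancel_left] at this
      exact Or.inr ⟨_, this, sg_sg M i ρ⟩
  · rintro (rfl | ⟨γ, hγ, rfl⟩)
    · exact (ee_mem_inv_iff i w).2 h
    · exact sg_mem_inv hγ fun hc => h (hc ▸ hγ)

lemma ee_not_mem_image {i : B} {w : W} : ee i ∉ sg M i '' Inv cs w := by
  rintro ⟨γ, hγ, h⟩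
  have : γ = -ee i := by rw [← sg_sg M i γ, h, sg_ee_self]
  have h1 := hγ.2.1
  rw [this] at h1
  exact (isRoot_ee (cs := cs) i).not_both (ee_nonneg i) (neg_nonneg.1 h1)

lemma inv_finite (w : W) : (Inv cs w).Finite := by
  induction w using cs.simple_induction_left with
  | one => rw [Inv_one]; exact Set.finite_empty
  | mul_simple_left w i ih =>
    by_cases h : ee i ∈ Inv cs w
    · have h1 : ee i ∉ Inv cs (cs.simple i * w) := fun h' => (ee_mem_inv_iff i w).1 h' h
      have h2 := inv_simple_mul h1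
      rw [cs.simple_mul_simple_cancel_left] at h2
      have h3 : (sg M i '' Inv cs (cs.simple i * w)).Finite :=
        ih.subset (by rw [h2]; exact Set.subset_insert _ _)
      exact Set.Finite.of_finite_image h3 (Function.LeftInverse.injective (sg_sg M i)).injOn
    · rw [inv_simple_mul h]
      exact (ih.image _).insert _

lemma ee_mem_inv_of_len {i : B} {w : W} (h : cs.length (cs.simple i * w) < cs.length w) :
    ee i ∈ Inv cs w := by
  refine ⟨isRoot_ee i, ee_nonneg i, geo_nonpos cs _ i ?_⟩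
  rw [← cs.length_inv, mul_inv_rev, cs.inv_simple, inv_inv, cs.length_inv]
  exact h

/-- coordinates outside the word are not changed -/
lemma geo_word_coord (ω : List B) {i : B} (hi : i ∉ ω) (v : B → ℝ) :
    geo cs (cs.wordProd ω) v i = v i := by
  induction ω with
  | nil => simp
  | cons j ω ih =>
    have hij : i ≠ j := fun h => hi (h ▸ List.mem_cons_self)
    rw [cs.wordProd_cons, geo_mul, geo_simple, sg_apply]
    simp [ee, hij, ih fun h => hi (List.mem_cons_of_mem _ h)]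

lemma geo_word_nonneg (ω : List B) {i : B} (hi : i ∉ ω) : 0 ≤ geo cs (cs.wordProd ω) (ee i) := by
  rcases ((isRoot_ee (cs := cs) i).geo (cs.wordProd ω)).sign with h | h
  · exact h
  · have := h i
    rw [geo_word_coord ω hi] at this
    simp [ee] at this
    linarith

lemma nodup_ne_one {ω : List B} (h : ω.Nodup) (h1 : cs.wordProd ω = 1) : ω = [] := by
  rcases List.eq_nil_or_concat ω with rfl | ⟨ω', i, rfl⟩
  · rfl
  · exfalso
    rw [List.concat_eq_append] at h
    have hi : i ∉ ω' := fun hc => (List.nodup_append.1 h).2.2 i hc i (by simp) rfl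
    have h2 := (geo_nonneg_iff cs _ i).1 (geo_word_nonneg ω' hi)
    rw [← cs.wordProd_concat, h1] at h2
    simp at h2

end Pool.Agent.H609Z.DA
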